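import Mathlib
import Pool.Agent.Work.MP_c629c8_al.PiGood

/-!
# The groups attached to branches of the tree of finite sequences

`p s` is a prime number for every finite sequence `s` of natural numbers. The group of a sequence
`x : ℕ → ℕ` is the direct sum of the groups `ℤ/p(s)` for the initial segments `s` of `x`, with the
discrete topology.
-/

namespace Pool.Agent.Work.MP_c629c8_al

/-- The finite sequence `s` is an initial segment of the sequence `x`. -/
def Pre (s : List ℕ) (x : ℕ → ℕ) : Prop := ∀ (k : ℕ) (h : k < s.length), s[k] = x k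

/-- The elements of the direct sum of the groups `ℤ/p(s)` which are supported on initial segments
of `x`. -/
def branchSub (p : List ℕ → ℕ) (x : ℕ → ℕ) : AddSubgroup (Π₀ s : List ℕ, ZMod (p s)) where
  carrier := {f | ∀ s, f s ≠ 0 → Pre s x}
  zero_mem' := fun _ h => absurd rfl h
  add_mem' := fun {f g} hf hg s h => by
    by_cases h1 : f s = 0
    · refine hg s fun h2 => h ?_
      rw [DFinsupp.add_apply, h1, h2, add_zero]
    · exact hf s h1
  neg_mem' := fun {f} hf s h => hf s fun h1 => h (by rw [DFinsupp.neg_apply, h1, neg_zero])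

/-- The direct sum of the groups `ℤ/p(s)` over the initial segments `s` of `x`, with the discrete
topology. -/
def BranchGroup (p : List ℕ → ℕ) (x : ℕ → ℕ) : Type := branchSub p x

noncomputable instance (p : List ℕ → ℕ) (x : ℕ → ℕ) : AddCommGroup (BranchGroup p x) :=
  inferInstanceAs (AddCommGroup (branchSub p x))

instance (p : List ℕ → ℕ) (x : ℕ → ℕ) : TopologicalSpace (BranchGroup p x) := ⊥

instance (p : List ℕ → ℕ) (x : ℕ → ℕ) : DiscreteTopology (BranchGroup p x) := ⟨rfl⟩

/-- Linear uniformisation for the family `c` of sequences: for all nodes `s` let `R s` be a space of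
finitely supported vectors, supported on the indices `i` for which `s` is an initial segment of
`c i`, and let `L s` be a linear functional on `R s` which vanishes at the vectors supported on one
index. Then there is `n` such that `L s` vanishes at all vectors of `R s` supported on indices `i`
with `n i ≤ length s`. -/
def LU {I : Type*} (p : List ℕ → ℕ) (c : I → ℕ → ℕ) : Prop :=
  ∀ (R : ∀ s, Submodule (ZMod (p s)) (I →₀ ZMod (p s))) (L : ∀ s, R s →ₗ[ZMod (p s)] ZMod (p s)),
    (∀ s, ∀ v ∈ R s, ∀ i, v i ≠ 0 → Pre s (c i)) →
    (∀ s (v : R s) i, (∀ j, (v : I →₀ ZMod (p s)) j ≠ 0 → j = i) → L s v = 0) →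
    ∃ n : I → ℕ, ∀ s (v : R s),
      (∀ i, (v : I →₀ ZMod (p s)) i ≠ 0 → n i ≤ s.length) → L s v = 0

end Pool.Agent.Work.MP_c629c8_al
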