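import Mathlib
import Pool.Agent.Work.MP_c629c8_al.Grp.Defs

/-!
# Point-finite sequences of nodes
-/

namespace Pool.Agent.Work.MP_c629c8_al

lemma pre_iff {s : List ℕ} {x : ℕ → ℕ} : Pre s x ↔ ∀ k < s.length, s[k]? = some (x k) := by
  constructor
  · intro h k hk
    rw [List.getElem?_eq_getElem hk, h k hk]
  · intro h k hk
    have := h k hk
    rw [List.getElem?_eq_getElem hk] at this
    exact Option.some.inj this

/-- the initial segment of length `n` -/
def pr (x : ℕ → ℕ) (n : ℕ) : List ℕ := (List.range n).map x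

lemma length_pr (x : ℕ → ℕ) (n : ℕ) : (pr x n).length = n := by simp [pr]

lemma pr_succ (x : ℕ → ℕ) (n : ℕ) : pr x (n + 1) = pr x n ++ [x n] := by
  simp [pr, List.range_succ]

lemma pr_getElem? {x : ℕ → ℕ} {n k : ℕ} (h : k < n) : (pr x n)[k]? = some (x k) := by
  rw [List.getElem?_eq_getElem (by rwa [length_pr])]
  simp [pr]

lemma pre_pr (x : ℕ → ℕ) (n : ℕ) : Pre (pr x n) x := by
  rw [pre_iff]
  intro k hk
  rw [length_pr] at hk
  exact pr_getElem? hk

lemma Pre.eq_pr {s : List ℕ} {x : ℕ → ℕ} (h : Pre s x) : s = pr x s.length := by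
  apply List.ext_getElem? fun k => ?_
  rcases lt_or_ge k s.length with hk | hk
  · rw [pre_iff.1 h k hk, pr_getElem? hk]
  · rw [List.getElem?_eq_none hk, List.getElem?_eq_none (by rwa [length_pr])]

lemma Pre.of_append {s t : List ℕ} {x : ℕ → ℕ} (h : Pre (s ++ t) x) : Pre s x := by
  rw [pre_iff] at *
  intro k hk
  rw [← h k (by rw [List.length_append]; omega), List.getElem?_append_left hk]

/-- different sequences have only finitely many common initial segments -/
lemma finite_pre_pre {x y : ℕ → ℕ} (h : x ≠ y) : {s | Pre s x ∧ Pre s y}.Finite := by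
  obtain ⟨m, hm⟩ := Function.ne_iff.1 h
  refine ((Set.finite_Iic m).image (pr x)).subset ?_
  rintro s ⟨h1, h2⟩
  refine ⟨s.length, ?_, h1.eq_pr.symm⟩
  by_contra hcon
  rw [Set.mem_Iic, not_le] at hcon
  have h3 := pre_iff.1 h1 m hcon
  rw [pre_iff.1 h2 m hcon] at h3
  exact hm (Option.some.inj h3).symm

lemma split_injective {f : ℕ → List ℕ}
    (h : ∀ j l, j < l → ∃ (k a b : ℕ), (f j)[k]? = some a ∧ (f l)[k]? = some b ∧ a ≠ b) :
    Function.Injective f := by
  intro j l hjl
  by_contra hne
  rcases lt_or_gt_of_ne hne with h1 | h1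
  · obtain ⟨k, a, b, h2, h3, h4⟩ := h _ _ h1
    rw [hjl, h3] at h2
    exact h4 (Option.some.inj h2).symm
  · obtain ⟨k, a, b, h2, h3, h4⟩ := h _ _ h1
    rw [hjl, h2] at h3
    exact h4 (Option.some.inj h3)

lemma split_finite {f : ℕ → List ℕ}
    (h : ∀ j l, j < l → ∃ (k a b : ℕ), (f j)[k]? = some a ∧ (f l)[k]? = some b ∧ a ≠ b)
    (x : ℕ → ℕ) : {k | Pre (f k) x}.Finite := by
  apply Set.Subsingleton.finite
  have key : ∀ j l, j < l → Pre (f j) x → Pre (f l) x → False := by
    intro j l hjl hj hl
    obtain ⟨k, a, b, h2, h3, h4⟩ := h _ _ hjl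
    have e1 : k < (f j).length := by
      by_contra hcon
      rw [List.getElem?_eq_none (not_lt.1 hcon)] at h2
      exact Option.some_ne_none _ h2.symm
    have e2 : k < (f l).length := by
      by_contra hcon
      rw [List.getElem?_eq_none (not_lt.1 hcon)] at h3
      exact Option.some_ne_none _ h3.symm
    rw [pre_iff.1 hj k e1] at h2
    rw [pre_iff.1 hl k e2] at h3
    exact h4 ((Option.some.inj h2).symm.trans (Option.some.inj h3))
  intro j hj l hl
  by_contra hne
  rcases lt_or_gt_of_ne hne with h1 | h1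
  · exact key _ _ h1 hj hl
  · exact key _ _ h1 hl hj

/-- Let `B F` be infinite sets of nodes which decrease with the finite set `F` of indices. Then there
are `F` and a sequence of different nodes in `B F` such that for all `i` outside `F` only finitely
many of them are initial segments of `c i`. -/
theorem exists_pointFinite {I : Type*} {c : I → ℕ → ℕ} (hc : Function.Injective c)
    {B : Finset I → Set (List ℕ)} (hanti : ∀ F F', F ⊆ F' → B F' ⊆ B F)
    (hinf : ∀ F, (B F).Infinite) :
    ∃ (F : Finset I) (f : ℕ → List ℕ), Function.Injective f ∧ (∀ k, f k ∈ B F) ∧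
      ∀ i, i ∉ F → {k | Pre (f k) (c i)}.Finite := by
  classical
  set heavy : List ℕ → Prop := fun u => ∀ F, {s | s ∈ B F ∧ u <+: s}.Infinite with hheavy
  have h0 : heavy [] := by
    intro F
    have : {s | s ∈ B F ∧ [] <+: s} = B F := by
      ext s
      simp
    rw [this]
    exact hinf F
  by_cases hcase : ∃ u, heavy u ∧ ∀ n, ¬ heavy (u ++ [n])
  · obtain ⟨u, hu, hn⟩ := hcase
    have h1 : ∀ n, ∃ F, {s | s ∈ B F ∧ (u ++ [n]) <+: s}.Finite := by
      intro n
      have := hn n
      simp only [hheavy, not_forall, Set.not_infinite] at this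
      exact this
    choose Fn hFn using h1
    have h2 : {n | ∃ s ∈ B ∅, (u ++ [n]) <+: s}.Infinite := by
      intro hfin
      apply hu (hfin.toFinset.biUnion Fn)
      refine ((Set.finite_singleton u).union (hfin.biUnion fun n _ => hFn n)).subset ?_
      rintro s ⟨hs, r, rfl⟩
      cases r with
      | nil => left; simp
      | cons n r =>
        right
        have hpre : (u ++ [n]) <+: (u ++ n :: r) := ⟨r, by simp⟩
        have hn' : n ∈ {n | ∃ s ∈ B ∅, (u ++ [n]) <+: s} :=
          ⟨_, hanti _ _ (Finset.empty_subset _) hs, hpre⟩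
        simp only [Set.mem_iUnion]
        refine ⟨n, hn', hanti _ _ ?_ hs, hpre⟩
        exact Finset.subset_biUnion_of_mem Fn (hfin.mem_toFinset.2 hn')
    have h3 : ∀ z : {n | ∃ s ∈ B ∅, (u ++ [n]) <+: s}, ∃ s ∈ B ∅, (u ++ [(z : ℕ)]) <+: s :=
      fun z => z.2
    choose g hgB hg using h3
    let e := h2.natEmbedding
    have hsplit : ∀ j l, j < l → ∃ (k a b : ℕ), (g (e j))[k]? = some a ∧
        (g (e l))[k]? = some b ∧ a ≠ b := by
      intro j l hjl
      refine ⟨u.length, e j, e l, ?_, ?_, ?_⟩
      · obtain ⟨r, hr⟩ := hg (e j)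
        rw [← hr, List.append_assoc, List.getElem?_append_right (le_refl _)]
        simp
      · obtain ⟨r, hr⟩ := hg (e l)
        rw [← hr, List.append_assoc, List.getElem?_append_right (le_refl _)]
        simp
      · intro h
        exact hjl.ne (e.injective (Subtype.ext h))
    exact ⟨∅, fun k => g (e k), split_injective hsplit, fun k => hgB _,
      fun i _ => split_finite hsplit _⟩
  · push Not at hcase
    choose! g hg using hcase
    -- the branch of heavy nodes
    let U : ℕ → List ℕ := fun n => Nat.rec [] (fun _ u => u ++ [g u]) n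
    have hU0 : U 0 = [] := rfl
    have hUs : ∀ n, U (n + 1) = U n ++ [g (U n)] := fun n => rfl
    have hUh : ∀ n, heavy (U n) := by
      intro n
      induction n with
      | zero => exact h0
      | succ n ih =>
        rw [hUs]
        exact hg _ ih
    set b : ℕ → ℕ := fun n => g (U n) with hb
    have hUb : ∀ n, U n = pr b n := by
      intro n
      induction n with
      | zero => rfl
      | succ n ih => rw [hUs, pr_succ, ← ih]
    obtain ⟨Fb, hFb⟩ : ∃ Fb : Finset I, ∀ i, i ∉ Fb → c i ≠ b := by
      by_cases h : ∃ i, c i = b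
      · obtain ⟨i, hi⟩ := h
        refine ⟨{i}, fun j hj hjb => hj ?_⟩
        rw [Finset.mem_singleton]
        exact hc (hjb.trans hi.symm)
      · exact ⟨∅, fun j _ hj => h ⟨j, hj⟩⟩
    by_cases hA : {s | s ∈ B Fb ∧ Pre s b}.Infinite
    · let e := hA.natEmbedding
      refine ⟨Fb, fun k => (e k : List ℕ), fun j l h => e.injective (Subtype.ext h),
        fun k => (e k).2.1, fun i hi => ?_⟩
      have hfin := finite_pre_pre (hFb i hi).symm
      refine Set.Finite.of_finite_image (f := fun k => (e k : List ℕ)) (hfin.subset ?_)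
        (fun j _ l _ h => e.injective (Subtype.ext h))
      rintro _ ⟨k, hk, rfl⟩
      exact ⟨(e k).2.2, hk⟩
    · rw [Set.not_infinite] at hA
      have h1 : ∀ n, ∃ s ∈ B Fb, pr b n <+: s ∧ ¬ Pre s b := by
        intro n
        have h2 := hUh n Fb
        rw [hUb] at h2
        obtain ⟨s, hs1, hs2⟩ := (h2.sdiff hA).nonempty
        exact ⟨s, hs1.1, hs1.2, fun h => hs2 ⟨hs1.1, h⟩⟩
      choose h hhB hhp hhn using h1
      let N : ℕ → ℕ := fun j => Nat.rec 0 (fun _ m => (h m).length + 1) j
      have hNs : ∀ j, N (j + 1) = (h (N j)).length + 1 := fun j => rfl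
      have hlen : ∀ n, n ≤ (h n).length := by
        intro n
        have := (hhp n).length_le
        rwa [length_pr] at this
      have hNm : StrictMono N := strictMono_nat_of_lt_succ fun j => by
        rw [hNs]
        exact Nat.lt_succ_of_le (hlen _)
      have hsplit : ∀ j l, j < l → ∃ (k a b : ℕ), (h (N j))[k]? = some a ∧
          (h (N l))[k]? = some b ∧ a ≠ b := by
        intro j l hjl
        have h2 := hhn (N j)
        unfold Pre at h2
        push Not at h2
        obtain ⟨k, hk, hne⟩ := h2
        refine ⟨k, _, b k, List.getElem?_eq_getElem hk, ?_, hne⟩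
        have h3 : k < N l := by
          have h4 : N (j + 1) ≤ N l := hNm.monotone hjl
          rw [hNs] at h4
          omega
        obtain ⟨r, hr⟩ := hhp (N l)
        rw [← hr, List.getElem?_append_left (by rwa [length_pr]), pr_getElem? h3]
      exact ⟨Fb, fun k => h (N k), split_injective hsplit, fun k => hhB _,
        fun i _ => split_finite hsplit _⟩

end Pool.Agent.Work.MP_c629c8_al
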