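import Mathlib
import Pool.Agent.Work.MP_c629c8_al.Grp.Tree

/-!
# Components of the elements of the product of the branch groups
-/

namespace Pool.Agent.Work.MP_c629c8_al

open Topology

section branch

variable {p : List ℕ → ℕ} {x : ℕ → ℕ}

/-- the coordinate at a node -/
def vl (s : List ℕ) : BranchGroup p x →+ ZMod (p s) where
  toFun d := (id d : branchSub p x).1 s
  map_zero' := rfl
  map_add' _ _ := rfl

lemma vl_ext {d e : BranchGroup p x} (h : ∀ s, vl s d = vl s e) : d = e :=
  Subtype.ext (DFinsupp.ext h)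

lemma vl_pre {d : BranchGroup p x} {s : List ℕ} (h : vl s d ≠ 0) : Pre s x :=
  (id d : branchSub p x).2 s h

lemma vl_finite (d : BranchGroup p x) : {s | vl s d ≠ 0}.Finite := by
  classical
  refine ((id d : branchSub p x).1.support.finite_toSet).subset fun s hs => ?_
  rw [Finset.mem_coe, DFinsupp.mem_support_iff]
  exact hs

/-- an element from its coordinates -/
def mkB (f : Π₀ s : List ℕ, ZMod (p s)) (h : f ∈ branchSub p x) : BranchGroup p x :=
  (⟨f, h⟩ : branchSub p x)

lemma vl_mkB {f : Π₀ s : List ℕ, ZMod (p s)} (h : f ∈ branchSub p x) (s : List ℕ) :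
    vl s (mkB f h) = f s := rfl

lemma single_mem {s : List ℕ} (a : ZMod (p s)) (h : Pre s x) :
    (DFinsupp.single s a : Π₀ s : List ℕ, ZMod (p s)) ∈ branchSub p x := by
  intro t ht
  by_cases hst : s = t
  · rwa [← hst]
  · exact absurd (DFinsupp.single_eq_of_ne (Ne.symm hst)) ht

open Classical in
/-- the element with the coordinate `a` at the node `s`; it is zero if `s` is not an initial segment
of `x` -/
noncomputable def sgl (s : List ℕ) (a : ZMod (p s)) : BranchGroup p x :=
  if h : Pre s x then mkB (DFinsupp.single s a) (single_mem a h) else 0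

open Classical in
lemma vl_sgl (s : List ℕ) (a : ZMod (p s)) (ha : a ≠ 0 → Pre s x) (t : List ℕ) :
    vl t (sgl s a : BranchGroup p x) = if h : s = t then h ▸ a else 0 := by
  unfold sgl
  by_cases hs : Pre s x
  · rw [dif_pos hs, vl_mkB]
    by_cases h : s = t
    · subst h
      simp
    · rw [dif_neg h, DFinsupp.single_eq_of_ne (Ne.symm h)]
  · rw [dif_neg hs]
    have ha0 : a = 0 := by
      by_contra h
      exact hs (ha h)
    subst ha0
    rw [map_zero]
    split_ifs with h
    · subst h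
      rfl
    · rfl

lemma vl_sgl_self {s : List ℕ} {a : ZMod (p s)} (ha : a ≠ 0 → Pre s x) :
    vl s (sgl s a : BranchGroup p x) = a := by
  rw [vl_sgl s a ha, dif_pos rfl]

lemma vl_sgl_of_ne {s t : List ℕ} {a : ZMod (p s)} (ha : a ≠ 0 → Pre s x) (h : s ≠ t) :
    vl t (sgl s a : BranchGroup p x) = 0 := by
  rw [vl_sgl s a ha, dif_neg h]

end branch

section prod

variable {I : Type*} {p : List ℕ → ℕ} {c : I → ℕ → ℕ}

/-- the product of the branch groups -/
abbrev Prd (p : List ℕ → ℕ) (c : I → ℕ → ℕ) : Type _ := ∀ i, BranchGroup p (c i)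

/-- the element of the product with given coordinates at the node `s` -/
noncomputable def mkS (s : List ℕ) (g : I → ZMod (p s)) : Prd p c := fun i => sgl s (g i)

lemma vl_mkS_self {s : List ℕ} {g : I → ZMod (p s)} (hg : ∀ i, g i ≠ 0 → Pre s (c i)) (i : I) :
    vl s ((mkS s g : Prd p c) i) = g i := vl_sgl_self (hg i)

lemma vl_mkS_of_ne {s t : List ℕ} {g : I → ZMod (p s)} (hg : ∀ i, g i ≠ 0 → Pre s (c i))
    (h : s ≠ t) (i : I) : vl t ((mkS s g : Prd p c) i) = 0 := vl_sgl_of_ne (hg i) h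

/-- the component at the node `s` -/
noncomputable def cpt (s : List ℕ) (x : Prd p c) : Prd p c := mkS s fun i => vl s (x i)

lemma vl_cpt_self (s : List ℕ) (x : Prd p c) (i : I) : vl s (cpt s x i) = vl s (x i) :=
  vl_mkS_self (fun _ h => vl_pre h) i

lemma vl_cpt_of_ne {s t : List ℕ} (h : s ≠ t) (x : Prd p c) (i : I) : vl t (cpt s x i) = 0 :=
  vl_mkS_of_ne (fun _ h => vl_pre h) h i

lemma prd_ext {x y : Prd p c} (h : ∀ i s, vl s (x i) = vl s (y i)) : x = y :=
  funext fun i => vl_ext (h i)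

lemma cpt_add (s : List ℕ) (x y : Prd p c) : cpt s (x + y) = cpt s x + cpt s y := by
  refine prd_ext fun i t => ?_
  rw [Pi.add_apply, map_add]
  by_cases h : s = t
  · subst h
    rw [vl_cpt_self, vl_cpt_self, vl_cpt_self, Pi.add_apply, map_add]
  · rw [vl_cpt_of_ne h, vl_cpt_of_ne h, vl_cpt_of_ne h, add_zero]

lemma cpt_zero (s : List ℕ) : cpt s (0 : Prd p c) = 0 := by
  refine prd_ext fun i t => ?_
  rw [Pi.zero_apply, map_zero]
  by_cases h : s = t
  · subst h
    rw [vl_cpt_self, Pi.zero_apply, map_zero]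
  · rw [vl_cpt_of_ne h]

lemma cpt_neg (s : List ℕ) (x : Prd p c) : cpt s (-x) = -cpt s x := by
  rw [eq_neg_iff_add_eq_zero, ← cpt_add, neg_add_cancel, cpt_zero]

lemma cpt_sub (s : List ℕ) (x y : Prd p c) : cpt s (x - y) = cpt s x - cpt s y := by
  rw [sub_eq_add_neg, cpt_add, cpt_neg, ← sub_eq_add_neg]

/-- the elements supported at the node `s` -/
def lay (p : List ℕ → ℕ) (c : I → ℕ → ℕ) (s : List ℕ) : AddSubgroup (Prd p c) where
  carrier := {x | ∀ i t, s ≠ t → vl t (x i) = 0}
  zero_mem' := fun i t _ => map_zero (vl t)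
  add_mem' := fun {x y} hx hy i t h => by
    rw [Pi.add_apply, map_add, hx i t h, hy i t h, add_zero]
  neg_mem' := fun {x} hx i t h => by rw [Pi.neg_apply, map_neg, hx i t h, neg_zero]

lemma mem_lay {s : List ℕ} {x : Prd p c} : x ∈ lay p c s ↔ ∀ i t, s ≠ t → vl t (x i) = 0 :=
  Iff.rfl

lemma cpt_mem_lay (s : List ℕ) (x : Prd p c) : cpt s x ∈ lay p c s := fun i _ h =>
  vl_cpt_of_ne h x i

lemma mkS_mem_lay {s : List ℕ} {g : I → ZMod (p s)} (hg : ∀ i, g i ≠ 0 → Pre s (c i)) :
    (mkS s g : Prd p c) ∈ lay p c s := fun i _ h => vl_mkS_of_ne hg h i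

lemma cpt_eq_self {s : List ℕ} {x : Prd p c} (hx : x ∈ lay p c s) : cpt s x = x := by
  refine prd_ext fun i t => ?_
  by_cases h : s = t
  · subst h
    rw [vl_cpt_self]
  · rw [vl_cpt_of_ne h, hx i t h]

lemma cpt_of_lay_ne {s t : List ℕ} (h : s ≠ t) {x : Prd p c} (hx : x ∈ lay p c s) :
    cpt t x = 0 := by
  refine prd_ext fun i r => ?_
  rw [Pi.zero_apply, map_zero]
  by_cases h2 : t = r
  · subst h2
    rw [vl_cpt_self, hx i t h]
  · rw [vl_cpt_of_ne h2]

lemma eq_of_lay {s : List ℕ} {x y : Prd p c} (hx : x ∈ lay p c s) (hy : y ∈ lay p c s)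
    (h : ∀ i, vl s (x i) = vl s (y i)) : x = y := by
  refine prd_ext fun i t => ?_
  by_cases hst : s = t
  · subst hst
    exact h i
  · rw [hx i t hst, hy i t hst]

lemma lay_apply_ne {s : List ℕ} {x : Prd p c} (hx : x ∈ lay p c s) {i : I} (h : x i ≠ 0) :
    Pre s (c i) := by
  by_contra hcon
  apply h
  refine vl_ext fun t => ?_
  rw [map_zero]
  by_cases hst : s = t
  · subst hst
    by_contra h2
    exact hcon (vl_pre h2)
  · exact hx i t hst

lemma cpt_apply_eq_zero {s : List ℕ} {x : Prd p c} {i : I} (h : x i = 0) : cpt s x i = 0 := by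
  refine vl_ext fun t => ?_
  rw [map_zero]
  by_cases hst : s = t
  · subst hst
    rw [vl_cpt_self, h, map_zero]
  · rw [vl_cpt_of_ne hst]

/-- finitely many coordinates see finitely many nodes only -/
lemma exists_support (F : Finset I) (x : Prd p c) : ∃ S : Finset (List ℕ), ∀ i ∈ F, ∀ s,
    vl s (x i) ≠ 0 → s ∈ S := by
  have h : (⋃ i ∈ F, {s | vl s (x i) ≠ 0}).Finite :=
    F.finite_toSet.biUnion fun i _ => vl_finite (x i)
  refine ⟨h.toFinset, fun i hi s hs => ?_⟩
  rw [Set.Finite.mem_toFinset]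
  simp only [Set.mem_iUnion]
  exact ⟨i, hi, hs⟩

lemma vl_sum {S : Finset (List ℕ)} (f : List ℕ → Prd p c) (i : I) (t : List ℕ) :
    vl t ((∑ s ∈ S, f s) i) = ∑ s ∈ S, vl t (f s i) := by
  rw [Finset.sum_apply, map_sum]

/-- on finitely many coordinates an element is the sum of its components at finitely many nodes -/
lemma sum_cpt_apply {F : Finset I} {x : Prd p c} {S : Finset (List ℕ)}
    (hS : ∀ i ∈ F, ∀ s, vl s (x i) ≠ 0 → s ∈ S) {i : I} (hi : i ∈ F) :
    (∑ s ∈ S, cpt s x) i = x i := by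
  classical
  refine vl_ext fun t => ?_
  rw [vl_sum]
  by_cases ht : t ∈ S
  · rw [Finset.sum_eq_single t (fun s _ h => vl_cpt_of_ne h x i) (fun h => absurd ht h),
      vl_cpt_self]
  · rw [Finset.sum_eq_zero]
    · by_contra h
      exact ht (hS i hi t fun h2 => h h2.symm)
    · intro s hs
      exact vl_cpt_of_ne (fun h => ht (by rwa [← h])) x i

/-- if the components of `x` at the nodes of a finite set are known and `F` does not see other nodes
-/
lemma exists_mul (hp : ∀ s, (p s).Prime) (hpi : Function.Injective p) (F : Finset I)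
    (x : Prd p c) (s : List ℕ) : ∃ m : ℕ, ∀ i ∈ F, m • x i = cpt s x i := by
  classical
  obtain ⟨S, hS⟩ := exists_support F x
  have hco : (p s).Coprime (∏ t ∈ S.erase s, p t) := by
    apply Nat.Coprime.prod_right
    intro t ht
    rw [Nat.coprime_primes (hp s) (hp t)]
    intro h
    exact (Finset.mem_erase.1 ht).1 (hpi h).symm
  obtain ⟨m, hm1, hm2⟩ := Nat.chineseRemainder hco 1 0
  refine ⟨m, fun i hi => vl_ext fun t => ?_⟩
  rw [map_nsmul, nsmul_eq_mul]
  by_cases hst : s = t
  · subst hst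
    rw [vl_cpt_self]
    have : ((m : ℕ) : ZMod (p s)) = ((1 : ℕ) : ZMod (p s)) :=
      (ZMod.natCast_eq_natCast_iff _ _ _).2 hm1
    rw [this, Nat.cast_one, one_mul]
  · rw [vl_cpt_of_ne hst]
    by_cases h0 : vl t (x i) = 0
    · rw [h0, mul_zero]
    · have ht : t ∈ S.erase s := Finset.mem_erase.2 ⟨fun h => hst h.symm, hS i hi t h0⟩
      have h1 : (∏ t ∈ S.erase s, p t) ∣ m := (Nat.modEq_zero_iff_dvd).1 hm2
      have h2 : p t ∣ m := (Finset.dvd_prod_of_mem p ht).trans h1
      rw [(ZMod.natCast_eq_zero_iff _ _).2 h2, zero_mul]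

end prod

section closed

variable {I : Type*} {D : I → Type*} [∀ i, AddCommGroup (D i)] [∀ i, TopologicalSpace (D i)]

/-- membership in a closed subgroup can be tested on finite sets of coordinates -/
lemma mem_of_approx {H : AddSubgroup (∀ i, D i)} (hH : IsClosed (H : Set (∀ i, D i)))
    {x : ∀ i, D i} (h : ∀ F : Finset I, ∃ y ∈ H, ∀ i ∈ F, y i = x i) : x ∈ H := by
  have hx : x ∈ closure (H : Set (∀ i, D i)) := by
    rw [mem_closure_iff_nhds]
    intro W hW
    rw [nhds_pi, Filter.mem_pi] at hW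
    obtain ⟨F, hF, t, ht, hsub⟩ := hW
    obtain ⟨y, hy, hyx⟩ := h hF.toFinset
    refine ⟨y, hsub fun i hi => ?_, hy⟩
    rw [hyx i (hF.mem_toFinset.2 hi)]
    exact mem_of_mem_nhds (ht i)
  rwa [hH.closure_eq] at hx

end closed

section prod2

variable {I : Type*} {p : List ℕ → ℕ} {c : I → ℕ → ℕ}

/-- closed subgroups contain the components of their elements -/
lemma cpt_mem (hp : ∀ s, (p s).Prime) (hpi : Function.Injective p) {H : AddSubgroup (Prd p c)}
    (hH : IsClosed (H : Set (Prd p c))) {x : Prd p c} (hx : x ∈ H) (s : List ℕ) : cpt s x ∈ H := by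
  refine mem_of_approx hH fun F => ?_
  obtain ⟨m, hm⟩ := exists_mul hp hpi F x s
  exact ⟨m • x, H.nsmul_mem hx m, hm⟩

lemma finite_lay_coord (hp : ∀ s, (p s).Prime) (s : List ℕ) (x : ℕ → ℕ) :
    {d : BranchGroup p x | ∀ t, s ≠ t → vl t d = 0}.Finite := by
  have : NeZero (p s) := ⟨(hp s).ne_zero⟩
  refine Set.Finite.of_finite_image (f := vl s) (Set.toFinite _) ?_
  intro d hd e he h
  refine vl_ext fun t => ?_
  by_cases hst : s = t
  · subst hst
    exact h
  · rw [hd t hst, he t hst]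

lemma isCompact_lay (hp : ∀ s, (p s).Prime) (s : List ℕ) :
    IsCompact (lay p c s : Set (Prd p c)) := by
  have h : (lay p c s : Set (Prd p c)) =
      Set.univ.pi fun i => {d : BranchGroup p (c i) | ∀ t, s ≠ t → vl t d = 0} := by
    ext x
    simp only [SetLike.mem_coe, mem_lay, Set.mem_univ_pi, Set.mem_ofPred_eq]
  rw [h]
  exact isCompact_univ_pi fun i => (finite_lay_coord hp s (c i)).isCompact

lemma nsmul_lay {s : List ℕ} {x : Prd p c} (hx : x ∈ lay p c s) : p s • x = 0 := by
  refine prd_ext fun i t => ?_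
  rw [Pi.smul_apply, map_nsmul, Pi.zero_apply, map_zero]
  by_cases hst : s = t
  · subst hst
    rw [nsmul_eq_mul, ZMod.natCast_self, zero_mul]
  · rw [hx i t hst, nsmul_zero]

end prod2

end Pool.Agent.Work.MP_c629c8_al
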