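import Mathlib
import Pool.Agent.Work.MP_c629c8_al.Grp.Comp

/-!
# Compact sets of characters of closed subgroups of the product of the branch groups
-/

namespace Pool.Agent.Work.MP_c629c8_al

open Topology

section general

variable {Y : Type*} [AddCommGroup Y] [TopologicalSpace Y] [IsTopologicalAddGroup Y]

/-- on a compact set closed under multiples a compact set of characters takes finitely many forms -/
lemma exists_finite_forms {E : Set (Dual Y)} (hE : IsCompact E) {K : Set Y} (hK : IsCompact K)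
    (hmul : ∀ x ∈ K, ∀ j : ℕ, j • x ∈ K) :
    ∃ S : Finset (Dual Y), ∀ χ ∈ E, ∃ ψ ∈ S, ∀ x ∈ K, χ x = ψ x := by
  let O : Set (Dual Y) := {χ | Set.MapsTo χ K (Metric.ball 0 (1 / 4))}
  have hO : IsOpen O := isOpen_induced (ContinuousMap.isOpen_setOfPred_mapsTo hK Metric.isOpen_ball)
  obtain ⟨S, -, hS⟩ := hE.elim_nhds_subcover (fun ψ => (fun χ => χ - ψ) ⁻¹' O) (by
    intro ψ _
    refine (hO.preimage (continuous_id.sub continuous_const)).mem_nhds ?_
    intro x _
    show (ψ - ψ) x ∈ _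
    rw [sub_self]
    exact Metric.mem_ball_self (by norm_num))
  refine ⟨S, fun χ hχ => ?_⟩
  obtain ⟨ψ, hψ, h⟩ := Set.mem_iUnion₂.1 (hS hχ)
  refine ⟨ψ, hψ, fun x hx => ?_⟩
  have h2 : χ x - ψ x = 0 := by
    apply eq_zero_of_small
    intro j
    have h3 := h (hmul x hx j)
    rw [mem_ball_zero_iff] at h3
    have h4 : (χ - ψ) (j • x) = j • (χ x - ψ x) := by
      show χ (j • x) - ψ (j • x) = _
      rw [map_nsmul, map_nsmul, smul_sub]
    rwa [h4] at h3
  exact sub_eq_zero.1 h2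

end general

section tree

variable {I : Type*} {p : List ℕ → ℕ} {c : I → ℕ → ℕ} {Y : Type*} [AddCommGroup Y]
  [TopologicalSpace Y]

lemma exists_vanish_coord {ι : Y →+ Prd p c} (hι : IsInducing ι) (χ : Dual Y) :
    ∃ F : Finset I, ∀ y, (∀ i ∈ F, ι y i = 0) → χ y = 0 := by
  obtain ⟨U, hU, h⟩ := exists_nhds_vanish χ
  rw [hι.nhds_eq_comap, map_zero, Filter.mem_comap] at hU
  obtain ⟨W, hW, hWU⟩ := hU
  obtain ⟨F, hF⟩ := exists_coordOpen_sub hW
  refine ⟨F, fun y hy => ?_⟩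
  refine h ((coordOpen (fun i => BranchGroup p (c i)) F : AddSubgroup (Prd p c)).comap ι) ?_ y hy
  intro z hz
  exact hWU (hF hz)

variable [IsTopologicalAddGroup Y] {E : Set (Dual Y)}

lemma lay_vanish (hp : ∀ s, (p s).Prime) {ι : Y →+ Prd p c} (hι : IsClosedEmbedding ι)
    (hE : IsCompact E) (s : List ℕ) : ∃ F : Finset I, ∀ χ ∈ E, ∀ y, ι y ∈ lay p c s →
      (∀ i ∈ F, ι y i = 0) → χ y = 0 := by
  classical
  obtain ⟨S, hS⟩ := exists_finite_forms hE (hι.isCompact_preimage (isCompact_lay hp s)) (by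
    intro y hy j
    show ι (j • y) ∈ lay p c s
    rw [map_nsmul]
    exact (lay p c s).nsmul_mem hy j)
  choose F hF using fun ψ : Dual Y => exists_vanish_coord hι.isInducing ψ
  refine ⟨S.biUnion F, fun χ hχ y hy hyF => ?_⟩
  obtain ⟨ψ, hψ, h⟩ := hS χ hχ
  rw [h y hy]
  exact hF ψ y fun i hi => hyF i (Finset.mem_biUnion.2 ⟨ψ, hψ, hi⟩)

/-- a compact set of characters of a closed subgroup vanishes on an open subgroup -/
theorem exists_annihilator_tree (hp : ∀ s, (p s).Prime) (hpi : Function.Injective p)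
    (hc : Function.Injective c) {ι : Y →+ Prd p c} (hι : IsClosedEmbedding ι)
    (hE : IsCompact E) : ∃ F : Finset I, ∀ χ ∈ E, ∀ y, (∀ i ∈ F, ι y i = 0) → χ y = 0 := by
  classical
  by_contra hcon
  push Not at hcon
  let B : Finset I → Set (List ℕ) := fun F =>
    {s | ∃ χ ∈ E, ∃ y, ι y ∈ lay p c s ∧ (∀ i ∈ F, ι y i = 0) ∧ χ y ≠ 0}
  have hanti : ∀ F F', F ⊆ F' → B F' ⊆ B F := by
    rintro F F' hFF s ⟨χ, hχ, y, h1, h2, h3⟩
    exact ⟨χ, hχ, y, h1, fun i hi => h2 i (hFF hi), h3⟩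
  have hrange : IsClosed (ι.range : Set (Prd p c)) := by
    rw [AddMonoidHom.coe_range]
    exact hι.isClosed_range
  have claim : ∀ F, B F = ∅ → ∀ χ ∈ E, ∀ y, (∀ i ∈ F, ι y i = 0) → χ y = 0 := by
    intro F hF χ hχ y hy
    obtain ⟨F', hF'⟩ := exists_vanish_coord hι.isInducing χ
    obtain ⟨S, hS⟩ := exists_support F' (ι y)
    have h1 : ∀ s, ∃ z, ι z = cpt s (ι y) := fun s => cpt_mem hp hpi hrange ⟨y, rfl⟩ s
    choose z hz using h1
    have h2 : χ (y - ∑ s ∈ S, z s) = 0 := by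
      apply hF'
      intro i hi
      rw [map_sub, map_sum, Pi.sub_apply, sub_eq_zero]
      have : ∑ s ∈ S, ι (z s) = ∑ s ∈ S, cpt s (ι y) := Finset.sum_congr rfl fun s _ => hz s
      rw [this, sum_cpt_apply hS hi]
    rw [map_sub, map_sum, sub_eq_zero] at h2
    rw [h2]
    refine Finset.sum_eq_zero fun s _ => ?_
    by_contra h3
    have h4 : s ∈ B F := by
      refine ⟨χ, hχ, z s, ?_, ?_, h3⟩
      · rw [hz]
        exact cpt_mem_lay s _
      · intro i hi
        rw [hz]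
        exact cpt_apply_eq_zero (hy i hi)
    rw [hF] at h4
    exact h4
  have hinf : ∀ F, (B F).Infinite := by
    intro F hfin
    choose Fs hFs using fun s => lay_vanish hp hι hE s
    have hB : B (F ∪ hfin.toFinset.biUnion Fs) = ∅ := by
      rw [Set.eq_empty_iff_forall_notMem]
      intro s hs
      have hs2 : s ∈ B F := hanti _ _ Finset.subset_union_left hs
      obtain ⟨χ, hχ, y, h1, h2, h3⟩ := hs
      exact h3 (hFs s χ hχ y h1 fun i hi => h2 i (Finset.mem_union_right _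
        (Finset.mem_biUnion.2 ⟨s, hfin.mem_toFinset.2 hs2, hi⟩)))
    obtain ⟨χ, hχ, y, h1, h2⟩ := hcon (F ∪ hfin.toFinset.biUnion Fs)
    exact h2 (claim _ hB χ hχ y h1)
  obtain ⟨F, f, hfi, hfB, hf⟩ := exists_pointFinite hc hanti hinf
  choose χ hχE y hy1 hy2 hy3 using hfB
  have hyp : ∀ k, p (f k) • y k = 0 := by
    intro k
    apply hι.injective
    rw [map_nsmul, map_zero]
    exact nsmul_lay (hy1 k)
  have hfin : ∀ T : Finset I, {k | ∃ i ∈ T, ι (y k) i ≠ 0}.Finite := by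
    intro T
    have h1 : (⋃ i ∈ (T \ F : Finset I), {k | Pre (f k) (c i)}).Finite :=
      (T \ F).finite_toSet.biUnion fun i hi => hf i (Finset.mem_sdiff.1 (Finset.mem_coe.1 hi)).2
    refine h1.subset ?_
    rintro k ⟨i, hi, hne⟩
    have hiF : i ∉ F := fun h => hne (hy2 k i h)
    simp only [Set.mem_iUnion]
    exact ⟨i, Finset.mem_sdiff.2 ⟨hi, hiF⟩, lay_apply_ne (hy1 k) hne⟩
  -- the compact set of the multiples
  let g : (Σ k : ℕ, Fin (p (f k))) → Y := fun z => (z.2 : ℕ) • y z.1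
  have hg : Filter.Tendsto g Filter.cofinite (𝓝 0) := by
    rw [hι.isInducing.nhds_eq_comap, Filter.tendsto_comap_iff, map_zero]
    intro W hW
    obtain ⟨T, hT⟩ := exists_coordOpen_sub hW
    rw [Filter.mem_map, Filter.mem_cofinite]
    have h1 : (Sigma.fst ⁻¹' {k | ∃ i ∈ T, ι (y k) i ≠ 0} : Set (Σ k : ℕ, Fin (p (f k)))).Finite := by
      have : (⋃ k ∈ {k | ∃ i ∈ T, ι (y k) i ≠ 0}, Set.range fun a : Fin (p (f k)) =>
          (⟨k, a⟩ : Σ k : ℕ, Fin (p (f k)))).Finite :=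
        (hfin T).biUnion fun k _ => Set.finite_range _
      refine this.subset ?_
      rintro ⟨k, a⟩ hk
      simp only [Set.mem_iUnion]
      exact ⟨k, hk, a, rfl⟩
    refine h1.subset ?_
    rintro ⟨k, a⟩ hk
    by_contra h2
    apply hk
    apply hT
    intro i hi
    have h3 : ι (y k) i = 0 := by
      by_contra h4
      exact h2 ⟨i, hi, h4⟩
    show (ι ((a : ℕ) • y k)) i = 0
    rw [map_nsmul, Pi.smul_apply, h3, nsmul_zero]
  obtain ⟨S, hS⟩ := exists_finite_forms hE hg.isCompact_insert_range_of_cofinite (by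
    rintro x hx j
    rcases hx with rfl | ⟨⟨k, a⟩, rfl⟩
    · rw [smul_zero]
      exact Set.mem_insert _ _
    · right
      refine ⟨⟨k, ⟨(j * a) % p (f k), Nat.mod_lt _ (hp _).pos⟩⟩, ?_⟩
      show ((j * a) % p (f k)) • y k = j • ((a : ℕ) • y k)
      rw [← mul_smul]
      conv_rhs => rw [← Nat.mod_add_div (j * a) (p (f k)), add_smul, mul_comm (p (f k)), mul_smul,
        hyp, smul_zero, add_zero])
  choose Fψ hFψ using fun ψ : Dual Y => exists_vanish_coord hι.isInducing ψ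
  obtain ⟨k, hk⟩ := (hfin (S.biUnion Fψ)).exists_notMem
  obtain ⟨ψ, hψ, h⟩ := hS (χ k) (hχE k)
  have h1 := h (1 • y k) (Or.inr ⟨⟨k, ⟨1, (hp _).one_lt⟩⟩, rfl⟩)
  rw [one_smul] at h1
  apply hy3 k
  rw [h1]
  apply hFψ
  intro i hi
  by_contra h2
  exact hk ⟨i, Finset.mem_biUnion.2 ⟨ψ, hψ, hi⟩, h2⟩

end tree

end Pool.Agent.Work.MP_c629c8_al
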