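import Mathlib
import Pool.Agent.Work.MP_c629c8_al.Grp.CompChar
import Pool.Agent.Work.MP_c629c8_al.PiGood

/-!
# Products of branch groups all whose Hausdorff quotients are complete are strongly reflexive
-/

namespace Pool.Agent.Work.MP_c629c8_al

open Topology

section general

variable {Y : Type*} [AddCommGroup Y] [TopologicalSpace Y] [NonarchimedeanAddGroup Y]

/-- complete linear groups in which compact sets of characters vanish on a neighbourhood of zero
are reflexive -/
theorem isReflexive_of_vanish [T2Space Y] (hY : LinComplete Y)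
    (h : ∀ E : Set (Dual Y), IsCompact E → ∃ U ∈ 𝓝 (0 : Y), ∀ χ ∈ E, ∀ y ∈ U, χ y = 0) :
    IsReflexive Y where
  continuous := by
    apply eta_continuous
    intro E hE U' _ h0
    obtain ⟨U, hU, hN⟩ := h E hE
    filter_upwards [hU] with x hx χ hχ
    rw [hN χ hχ x hx]
    exact h0
  isOpenMap := eta_isOpenMap (eta_surjective hY)
  bijective := ⟨eta_injective, eta_surjective hY⟩

end general

section tree

variable {I : Type*} {p : List ℕ → ℕ} {c : I → ℕ → ℕ}

theorem isReflexive_subgroup (hp : ∀ s, (p s).Prime) (hpi : Function.Injective p)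
    (hc : Function.Injective c) (H : AddSubgroup (Prd p c))
    (hH : IsClosed (H : Set (Prd p c))) : IsReflexive H := by
  apply isReflexive_of_vanish (linComplete_subgroup H linComplete_pi hH)
  intro E hE
  obtain ⟨F, hF⟩ := exists_annihilator_tree hp hpi hc (ι := H.subtype)
    hH.isClosedEmbedding_subtypeVal hE
  exact ⟨_, (traceOpen H (coordOpen (fun i => BranchGroup p (c i)) F)).mem_nhds_zero,
    fun χ hχ y hy => hF χ hχ y hy⟩

theorem isReflexive_quotient (hp : ∀ s, (p s).Prime) (hpi : Function.Injective p)
    (hc : Function.Injective c) (H : AddSubgroup (Prd p c))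
    (hH : IsClosed (H : Set (Prd p c))) (hL : LinComplete (Prd p c ⧸ H)) :
    IsReflexive (Prd p c ⧸ H) := by
  have : T2Space (Prd p c ⧸ H) := by
    have : IsClosed (H : Set (Prd p c)) := hH
    infer_instance
  apply isReflexive_of_vanish hL
  intro E hE
  let π : Prd p c →ₜ+ Prd p c ⧸ H := ⟨QuotientAddGroup.mk' H, continuous_quot_mk⟩
  let π' : Dual (Prd p c ⧸ H) →ₜ+ Dual (Prd p c) :=
    ContinuousAddMonoidHom.compLeft UnitAddCircle π
  obtain ⟨F, hF⟩ := exists_annihilator_tree hp hpi hc (ι := AddMonoidHom.id (Prd p c))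
    IsClosedEmbedding.id (hE.image π'.continuous_toFun)
  refine ⟨_, (imageOpen H (coordOpen (fun i => BranchGroup p (c i)) F)).mem_nhds_zero,
    fun χ hχ y hy => ?_⟩
  obtain ⟨x, hx, rfl⟩ := hy
  exact hF (π' χ) ⟨χ, hχ, rfl⟩ x hx

/-- products of branch groups all whose Hausdorff quotients are complete are strongly reflexive -/
theorem stronglyReflexive_of_linComplete (hp : ∀ s, (p s).Prime) (hpi : Function.Injective p)
    (hc : Function.Injective c) (h : ∀ H : AddSubgroup (Prd p c),
      IsClosed (H : Set (Prd p c)) → LinComplete (Prd p c ⧸ H)) :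
    StronglyReflexive (Prd p c) :=
  fun H hH => ⟨isReflexive_subgroup hp hpi hc H hH, isReflexive_quotient hp hpi hc H hH (h H hH)⟩

end tree

end Pool.Agent.Work.MP_c629c8_al
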