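import Pool.Agent.Work.MP_c629c8_al.Grp.Defs
import Pool.Agent.Work.MP_c629c8_al.Unif.RamLU

/-!
# Relatively closed subgroups and coherent families

`G₀` is a subgroup of the product `X` of the groups of the branches `c i`, closed under components,
and `H ≤ G₀` is a subgroup which is closed relative to `G₀`. A coherent family `a` of elements of
`G₀` gives a Ramsey system, and a solution of the problem of this system gives a limit of `a`
modulo `H`.
-/

namespace Pool.Agent.Work.MP_c629c8_al

open Pool.Agent.Unif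

variable {I : Type*} {p : List ℕ → ℕ} {c : I → ℕ → ℕ}

/-- The coordinate of `x` at the index `i` and the node `s`. -/
def co (x : ∀ i, BranchGroup p (c i)) (i : I) (s : List ℕ) : ZMod (p s) :=
  (show branchSub p (c i) from x i).1 s

@[simp] theorem co_zero (i : I) (s : List ℕ) : co (0 : ∀ i, BranchGroup p (c i)) i s = 0 := rfl

@[simp] theorem co_add (x y : ∀ i, BranchGroup p (c i)) (i : I) (s : List ℕ) :
    co (x + y) i s = co x i s + co y i s := rfl

@[simp] theorem co_sub (x y : ∀ i, BranchGroup p (c i)) (i : I) (s : List ℕ) :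
    co (x - y) i s = co x i s - co y i s := rfl

@[simp] theorem co_neg (x : ∀ i, BranchGroup p (c i)) (i : I) (s : List ℕ) :
    co (-x) i s = - co x i s := rfl

/-- The coordinate as a homomorphism. -/
def coHom (p : List ℕ → ℕ) (c : I → ℕ → ℕ) (i : I) (s : List ℕ) :
    (∀ i, BranchGroup p (c i)) →+ ZMod (p s) where
  toFun x := co x i s
  map_zero' := rfl
  map_add' _ _ := rfl

theorem coHom_apply (i : I) (s : List ℕ) (x : ∀ i, BranchGroup p (c i)) :
    coHom p c i s x = co x i s := rfl

@[simp] theorem co_nsmul (m : ℕ) (x : ∀ i, BranchGroup p (c i)) (i : I) (s : List ℕ) :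
    co (m • x) i s = (m : ZMod (p s)) * co x i s := by
  have h := map_nsmul (coHom p c i s) m x
  rw [coHom_apply, coHom_apply, nsmul_eq_mul] at h
  exact h

theorem co_sum {ι : Type*} (S : Finset ι) (f : ι → ∀ i, BranchGroup p (c i)) (i : I)
    (s : List ℕ) : co (∑ k ∈ S, f k) i s = ∑ k ∈ S, co (f k) i s :=
  map_sum (coHom p c i s) f S

theorem pre_of_co {x : ∀ i, BranchGroup p (c i)} {i : I} {s : List ℕ} (h : co x i s ≠ 0) :
    Pre s (c i) := (show branchSub p (c i) from x i).2 s h

theorem co_eq_zero {x : ∀ i, BranchGroup p (c i)} {i : I} {s : List ℕ} (h : ¬ Pre s (c i)) :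
    co x i s = 0 := by
  by_contra h'
  exact h (pre_of_co h')

theorem co_ext {x y : ∀ i, BranchGroup p (c i)} {i : I} (h : ∀ s, co x i s = co y i s) :
    x i = y i := by
  have h1 : (show branchSub p (c i) from x i) = (show branchSub p (c i) from y i) :=
    Subtype.ext (DFinsupp.ext h)
  exact h1

theorem co_congr {x y : ∀ i, BranchGroup p (c i)} {i : I} (h : x i = y i) (s : List ℕ) :
    co x i s = co y i s := by
  unfold co
  rw [h]

open Classical in
/-- The nodes at which the coordinates of `x` with index `i` are not zero. -/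
noncomputable def sup (x : ∀ i, BranchGroup p (c i)) (i : I) : Finset (List ℕ) :=
  (show branchSub p (c i) from x i).1.support

theorem mem_sup {x : ∀ i, BranchGroup p (c i)} {i : I} {s : List ℕ} :
    s ∈ sup x i ↔ co x i s ≠ 0 := by
  classical
  exact DFinsupp.mem_support_iff

open Classical in
/-- The component of `x` at the node `s`. -/
noncomputable def cmp (s : List ℕ) (x : ∀ i, BranchGroup p (c i)) : ∀ i, BranchGroup p (c i) :=
  fun i => show branchSub p (c i) from ⟨DFinsupp.single s (co x i s), fun t ht => by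
    by_cases h : s = t
    · subst h
      refine pre_of_co (x := x) fun h' => ht ?_
      rw [h']
      simp
    · exact absurd (DFinsupp.single_eq_of_ne (Ne.symm h)) ht⟩

theorem co_cmp_self (s : List ℕ) (x : ∀ i, BranchGroup p (c i)) (i : I) :
    co (cmp s x) i s = co x i s := by
  classical
  exact DFinsupp.single_eq_same

theorem co_cmp_of_ne {s t : List ℕ} (h : t ≠ s) (x : ∀ i, BranchGroup p (c i)) (i : I) :
    co (cmp s x) i t = 0 := by
  classical
  exact DFinsupp.single_eq_of_ne h

/-- `H` is closed relative to `G₀`. -/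
def RelClosed (G₀ H : AddSubgroup (∀ i, BranchGroup p (c i))) : Prop :=
  ∀ x ∈ G₀, (∀ F : Finset I, ∃ h ∈ H, ∀ i ∈ F, h i = x i) → x ∈ H

/-- The components of the elements of a relatively closed subgroup belong to it. -/
theorem cmp_mem (hp : ∀ s, (p s).Prime) (hpi : Function.Injective p)
    {G₀ H : AddSubgroup (∀ i, BranchGroup p (c i))} (hG : ∀ x ∈ G₀, ∀ s, cmp s x ∈ G₀)
    (hle : H ≤ G₀) (hcl : RelClosed G₀ H) {h : ∀ i, BranchGroup p (c i)} (hh : h ∈ H)
    (s : List ℕ) : cmp s h ∈ H := by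
  classical
  refine hcl _ (hG h (hle hh) s) fun F => ?_
  let S : Finset (List ℕ) := (F.biUnion (sup h)).erase s
  let P : ℕ := ∏ t ∈ S, p t
  have hco : Nat.Coprime P (p s) := by
    refine Nat.Coprime.prod_left fun t ht => ?_
    exact (Nat.coprime_primes (hp t) (hp s)).2 fun h' => (Finset.ne_of_mem_erase ht) (hpi h')
  let u : ZMod (p s) := (P : ZMod (p s))⁻¹
  have : NeZero (p s) := ⟨(hp s).ne_zero⟩
  have : Fact (p s).Prime := ⟨hp s⟩
  have hP0 : (P : ZMod (p s)) ≠ 0 := by
    rw [Ne, ZMod.natCast_eq_zero_iff]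
    intro h'
    exact (hp s).one_lt.ne' (Nat.dvd_one.1 (hco ▸ Nat.dvd_gcd h' dvd_rfl))
  refine ⟨(u.val * P) • h, AddSubgroup.nsmul_mem _ hh _, fun i hi => co_ext fun t => ?_⟩
  rw [co_nsmul]
  by_cases hts : t = s
  · subst hts
    rw [co_cmp_self]
    push_cast
    rw [ZMod.natCast_zmod_val, inv_mul_cancel₀ hP0, one_mul]
  · rw [co_cmp_of_ne hts]
    by_cases ht : co h i t = 0
    · rw [ht, mul_zero]
    · have h1 : t ∈ S := Finset.mem_erase.2 ⟨hts, Finset.mem_biUnion.2 ⟨i, hi, mem_sup.2 ht⟩⟩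
      have h2 : ((u.val * P : ℕ) : ZMod (p t)) = 0 := by
        rw [ZMod.natCast_eq_zero_iff]
        exact (Finset.dvd_prod_of_mem p h1).mul_left _
      rw [h2, zero_mul]

/-- A coherent family modulo `H`. -/
def Coh (H : AddSubgroup (∀ i, BranchGroup p (c i))) (a : Finset I → ∀ i, BranchGroup p (c i)) :
    Prop := ∀ F F' : Finset I, F ⊆ F' → ∃ h ∈ H, ∀ i ∈ F, a F' i = a F i + h i

/-- (B2) -/
theorem limit_of_nodes (hp : ∀ s, (p s).Prime) (hpi : Function.Injective p)
    {G₀ H : AddSubgroup (∀ i, BranchGroup p (c i))} (hG : ∀ x ∈ G₀, ∀ s, cmp s x ∈ G₀)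
    (hle : H ≤ G₀) (hcl : RelClosed G₀ H) (a : Finset I → ∀ i, BranchGroup p (c i))
    (y : ∀ i, BranchGroup p (c i))
    (hy : ∀ s (E : Finset I), ∃ h ∈ H, ∀ i ∈ E, Pre s (c i) → co y i s = co (a E) i s + co h i s)
    (F : Finset I) : ∃ h ∈ H, ∀ i ∈ F, y i = a F i + h i := by
  classical
  choose g hg hgy using fun s => hy s F
  let S : Finset (List ℕ) := F.biUnion fun i => sup y i ∪ sup (a F) i
  refine ⟨∑ s ∈ S, cmp s (g s), AddSubgroup.sum_mem _ fun s _ =>
    cmp_mem hp hpi hG hle hcl (hg s) s, fun i hi => ?_⟩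
  have h1 : y i = (a F + ∑ s ∈ S, cmp s (g s)) i := by
    refine co_ext fun t => ?_
    rw [co_add, co_sum]
    by_cases ht : t ∈ S
    · rw [Finset.sum_eq_single_of_mem t ht fun s _ hs => co_cmp_of_ne (Ne.symm hs) _ _, co_cmp_self]
      by_cases hpre : Pre t (c i)
      · exact hgy t i hi hpre
      · rw [co_eq_zero hpre, co_eq_zero hpre, co_eq_zero hpre, add_zero]
    · rw [Finset.sum_eq_zero fun s hs => co_cmp_of_ne (fun h : t = s => ht (by rw [h]; exact hs)) _ _,
        add_zero]
      have h2 : co y i t = 0 := by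
        by_contra h'
        exact ht (Finset.mem_biUnion.2 ⟨i, hi, Finset.mem_union_left _ (mem_sup.2 h')⟩)
      have h3 : co (a F) i t = 0 := by
        by_contra h'
        exact ht (Finset.mem_biUnion.2 ⟨i, hi, Finset.mem_union_right _ (mem_sup.2 h')⟩)
      rw [h2, h3]
  exact h1

/-- The system of a coherent family. -/
def cohSys (H : AddSubgroup (∀ i, BranchGroup p (c i))) (a : Finset I → ∀ i, BranchGroup p (c i))
    (n₀ : I → ℕ) (s : List ℕ) : Set (Finset I) :=
  {E | ∃ h ∈ H, ∀ i ∈ E, Pre s (c i) → n₀ i ≤ s.length → co h i s = co (a E) i s}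

theorem cohSys_mono {H : AddSubgroup (∀ i, BranchGroup p (c i))}
    {a : Finset I → ∀ i, BranchGroup p (c i)} (ha : Coh H a) {n₀ : I → ℕ} {s : List ℕ}
    {E E' : Finset I} (h : E' ⊆ E) (hE : E ∈ cohSys H a n₀ s) : E' ∈ cohSys H a n₀ s := by
  obtain ⟨g, hg, hgE⟩ := hE
  obtain ⟨h', hh', hhE⟩ := ha E' E h
  refine ⟨g - h', H.sub_mem hg hh', fun i hi h1 h2 => ?_⟩
  have h3 : co (a E) i s = co (a E' + h') i s := co_congr (hhE i hi) s
  rw [co_sub, hgE i (h hi) h1 h2, h3, co_add, add_sub_cancel_right]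

theorem cohSys_small {H : AddSubgroup (∀ i, BranchGroup p (c i))}
    {a : Finset I → ∀ i, BranchGroup p (c i)} {n₀ : I → ℕ}
    (hn : ∀ i s, n₀ i ≤ s.length → co (a {i}) i s = 0) {s : List ℕ}
    {E : Finset I} (h : E.card ≤ 1) : E ∈ cohSys H a n₀ s := by
  refine ⟨0, H.zero_mem, fun i hi _ h2 => ?_⟩
  have h3 : E = {i} := by
    refine (Finset.eq_singleton_iff_unique_mem).2 ⟨hi, fun j hj => ?_⟩
    exact Finset.card_le_one.1 h j hj i hi
  rw [h3, hn i s h2, co_zero]

section linear

variable (H : AddSubgroup (∀ i, BranchGroup p (c i))) (a : Finset I → ∀ i, BranchGroup p (c i))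
  (n₀ : I → ℕ) (s : List ℕ)

/-- The pairing of a finitely supported vector with the coordinates of `x` at the node `s`. -/
noncomputable def pair (x : ∀ i, BranchGroup p (c i)) :
    (I →₀ ZMod (p s)) →ₗ[ZMod (p s)] ZMod (p s) :=
  Finsupp.linearCombination (ZMod (p s)) fun i => co x i s

theorem pair_apply (x : ∀ i, BranchGroup p (c i)) (v : I →₀ ZMod (p s)) :
    pair s x v = ∑ i ∈ v.support, v i * co x i s := by
  unfold pair
  rw [Finsupp.linearCombination_apply, Finsupp.sum]
  rfl

theorem pair_congr {x y : ∀ i, BranchGroup p (c i)} {v : I →₀ ZMod (p s)}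
    (h : ∀ i, v i ≠ 0 → co x i s = co y i s) : pair s x v = pair s y v := by
  rw [pair_apply, pair_apply]
  refine Finset.sum_congr rfl fun i hi => ?_
  rw [h i (Finsupp.mem_support_iff.1 hi)]

theorem pair_add_left (x y : ∀ i, BranchGroup p (c i)) (v : I →₀ ZMod (p s)) :
    pair s (x + y) v = pair s x v + pair s y v := by
  rw [pair_apply, pair_apply, pair_apply, ← Finset.sum_add_distrib]
  refine Finset.sum_congr rfl fun i _ => ?_
  rw [co_add, mul_add]

/-- The relations of `H` at the node `s`. -/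
noncomputable def relR : Submodule (ZMod (p s)) (I →₀ ZMod (p s)) where
  carrier := {v | (∀ i, v i ≠ 0 → Pre s (c i) ∧ n₀ i ≤ s.length) ∧ ∀ h ∈ H, pair s h v = 0}
  zero_mem' := ⟨fun i h => absurd rfl h, fun h _ => map_zero _⟩
  add_mem' := fun {v w} hv hw => by
    refine ⟨fun i hi => ?_, fun h hh => ?_⟩
    · by_cases h1 : v i = 0
      · refine hw.1 i fun h2 => hi ?_
        rw [Finsupp.add_apply, h1, h2, add_zero]
      · exact hv.1 i h1
    · rw [map_add, hv.2 h hh, hw.2 h hh, add_zero]
  smul_mem' := fun b v hv => by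
    refine ⟨fun i hi => ?_, fun h hh => ?_⟩
    · refine hv.1 i fun h1 => hi ?_
      rw [Finsupp.smul_apply, h1, smul_zero]
    · rw [map_smul, hv.2 h hh, smul_zero]

variable {H a n₀ s}

theorem pair_eq (ha : Coh H a) {v : I →₀ ZMod (p s)} (hv : v ∈ relR H n₀ s) {E E' : Finset I}
    (hE : v.support ⊆ E) (hE' : E ⊆ E') : pair s (a E') v = pair s (a E) v := by
  obtain ⟨h, hh, h1⟩ := ha E E' hE'
  have h2 : pair s (a E') v = pair s (a E + h) v :=
    pair_congr s fun i hi => co_congr (h1 i (hE (Finsupp.mem_support_iff.2 hi))) s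
  rw [h2, pair_add_left, hv.2 h hh, add_zero]

/-- The functional of the coherent family on the relations. -/
noncomputable def relL (ha : Coh H a) : relR H n₀ s →ₗ[ZMod (p s)] ZMod (p s) where
  toFun v := pair s (a (v : I →₀ ZMod (p s)).support) v
  map_add' v w := by
    classical
    let E := (v : I →₀ ZMod (p s)).support ∪ (w : I →₀ ZMod (p s)).support
    have h1 : ((v + w : relR H n₀ s) : I →₀ ZMod (p s)).support ⊆ E := Finsupp.support_add
    rw [← pair_eq ha (v + w).2 subset_rfl h1, ← pair_eq ha v.2 subset_rfl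
      (Finset.subset_union_left (s₂ := (w : I →₀ ZMod (p s)).support)),
      ← pair_eq ha w.2 subset_rfl
      (Finset.subset_union_right (s₁ := (v : I →₀ ZMod (p s)).support))]
    exact map_add _ _ _
  map_smul' b v := by
    have h1 : ((b • v : relR H n₀ s) : I →₀ ZMod (p s)).support ⊆
        (v : I →₀ ZMod (p s)).support := Finsupp.support_smul
    rw [← pair_eq ha (b • v).2 subset_rfl h1]
    exact map_smul _ _ _

theorem relL_apply (ha : Coh H a) (v : relR H n₀ s) {E : Finset I}
    (hE : (v : I →₀ ZMod (p s)).support ⊆ E) : relL ha v = pair s (a E) v :=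
  (pair_eq ha v.2 subset_rfl hE).symm

theorem mem_cohSys_iff (hp : ∀ s, (p s).Prime) (ha : Coh H a) {E : Finset I} :
    E ∈ cohSys H a n₀ s ↔
      ∀ v : relR H n₀ s, (v : I →₀ ZMod (p s)).support ⊆ E → relL ha v = 0 := by
  classical
  have : Fact (p s).Prime := ⟨hp s⟩
  constructor
  · rintro ⟨h, hh, hE⟩ v hv
    rw [relL_apply ha v hv, ← v.2.2 h hh]
    refine pair_congr s fun i hi => ?_
    obtain ⟨h1, h2⟩ := v.2.1 i hi
    exact (hE i (hv (Finsupp.mem_support_iff.2 hi)) h1 h2).symm
  · intro hL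
    let E' := E.filter fun i => Pre s (c i) ∧ n₀ i ≤ s.length
    let W : Submodule (ZMod (p s)) (E' → ZMod (p s)) :=
      { carrier := {w | ∃ h ∈ H, ∀ i : E', w i = co h i s}
        zero_mem' := ⟨0, H.zero_mem, fun i => rfl⟩
        add_mem' := by
          rintro v w ⟨h, hh, h1⟩ ⟨h', hh', h2⟩
          exact ⟨h + h', H.add_mem hh hh', fun i => by rw [Pi.add_apply, h1, h2, co_add]⟩
        smul_mem' := by
          rintro b v ⟨h, hh, h1⟩
          have : NeZero (p s) := ⟨(hp s).ne_zero⟩
          refine ⟨b.val • h, H.nsmul_mem hh _, fun i => ?_⟩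
          rw [Pi.smul_apply, h1, co_nsmul, ZMod.natCast_zmod_val, smul_eq_mul] }
    let w₀ : E' → ZMod (p s) := fun i => co (a E) i s
    by_contra hcon
    have hw₀ : w₀ ∉ W := by
      rintro ⟨h, hh, h1⟩
      refine hcon ⟨h, hh, fun i hi h2 h3 => ?_⟩
      exact (h1 ⟨i, Finset.mem_filter.2 ⟨hi, h2, h3⟩⟩).symm
    obtain ⟨f, hf, hWf⟩ := Submodule.exists_le_ker_of_notMem hw₀
    let v : I →₀ ZMod (p s) := ∑ i : E', Finsupp.single (i : I) (f (Pi.single i 1))
    have hvi : ∀ j, v j ≠ 0 → j ∈ E' := by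
      intro j hj
      by_contra h
      apply hj
      show (∑ i : E', Finsupp.single (i : I) (f (Pi.single i 1))) j = 0
      rw [Finsupp.finsetSum_apply]
      refine Finset.sum_eq_zero fun i _ => ?_
      rw [Finsupp.single_apply, if_neg]
      rintro rfl
      exact h i.2
    have hpair : ∀ x : ∀ i, BranchGroup p (c i), pair s x v = f fun i : E' => co x i s := by
      intro x
      have h1 : (fun i : E' => co x i s) = ∑ i : E', co x i s • (Pi.single i 1 : E' → ZMod (p s)) := by
        funext j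
        rw [Finset.sum_apply, Finset.sum_eq_single j]
        · simp
        · intro i _ hi
          rw [Pi.smul_apply, Pi.single_eq_of_ne (Ne.symm hi), smul_zero]
        · simp
      rw [h1]
      show pair s x (∑ i : E', Finsupp.single (i : I) (f (Pi.single i 1))) = _
      rw [map_sum, map_sum]
      refine Finset.sum_congr rfl fun i _ => ?_
      unfold pair
      rw [Finsupp.linearCombination_single, map_smul, smul_eq_mul, smul_eq_mul, mul_comm]
    have hvR : v ∈ relR H n₀ s := by
      refine ⟨fun i hi => (Finset.mem_filter.1 (hvi i hi)).2, fun h hh => ?_⟩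
      rw [hpair]
      exact hWf ⟨h, hh, fun i => rfl⟩
    have h2 := hL ⟨v, hvR⟩ fun i hi =>
      (Finset.mem_filter.1 (hvi i (Finsupp.mem_support_iff.1 hi))).1
    rw [relL_apply ha ⟨v, hvR⟩ (E := E) fun i hi =>
      (Finset.mem_filter.1 (hvi i (Finsupp.mem_support_iff.1 hi))).1] at h2
    exact hf ((hpair (a E)).symm.trans h2)

end linear

/-- (B1) The system of a coherent family is Ramsey. -/
theorem isRamsey_cohSys {I : Type} {p : List ℕ → ℕ} {c : I → ℕ → ℕ} (hp : ∀ s, (p s).Prime)
    {H : AddSubgroup (∀ i, BranchGroup p (c i))} {a : Finset I → ∀ i, BranchGroup p (c i)}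
    (ha : Coh H a) {n₀ : I → ℕ} (hn : ∀ i s, n₀ i ≤ s.length → co (a {i}) i s = 0) :
    IsRamsey (rbd p) (cohSys H a n₀) := by
  have h := isRamsey_sub p hp (fun s => relR H n₀ s) (fun s => relL ha) (by
    intro s v i hv
    have h1 : (v : I →₀ ZMod (p s)).support ⊆ {i} := fun j hj =>
      Finset.mem_singleton.2 (hv j (Finsupp.mem_support_iff.1 hj))
    rw [relL_apply ha v h1, pair_apply]
    refine Finset.sum_eq_zero fun j hj => ?_
    have h2 : j = i := hv j (Finsupp.mem_support_iff.1 hj)
    rw [h2, hn i s (h2 ▸ (v.2.1 j (Finsupp.mem_support_iff.1 hj)).2), mul_zero])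
  have heq : (fun s => {E : Finset I | ∀ v : relR H n₀ s,
      (∀ i, (v : I →₀ ZMod (p s)) i ≠ 0 → i ∈ E) → relL ha v = 0}) = cohSys H a n₀ := by
    funext s
    ext E
    rw [mem_cohSys_iff hp ha]
    constructor
    · exact fun h v hv => h v fun i hi => hv (Finsupp.mem_support_iff.2 hi)
    · exact fun h v hv => h v fun i hi => hv i (Finsupp.mem_support_iff.1 hi)
  rw [← heq]
  exact h

end Pool.Agent.Work.MP_c629c8_al
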