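import Mathlib
import Pool.Agent.Work.MP_c629c8_al.Grp.Rel
import Pool.Agent.Work.MP_c629c8_al.Grp.Comp
import Pool.Agent.Work.MP_c629c8_al.PiGood

/-!
# Completeness of the quotients of a product of branch groups
-/

namespace Pool.Agent.Work.MP_c629c8_al

open Topology

variable {I : Type*} {p : List ℕ → ℕ} {c : I → ℕ → ℕ}

/-- the open subgroup of the elements vanishing on `F`, in the quotient -/
noncomputable abbrev quoOpen (H : AddSubgroup (Prd p c)) (F : Finset I) : OpenAddSubgroup (Prd p c ⧸ H) :=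
  imageOpen H (coordOpen (fun i => BranchGroup p (c i)) F)

lemma mk_sub_mk_mem_quoOpen {H : AddSubgroup (Prd p c)} {F : Finset I} {x y : Prd p c} :
    (QuotientAddGroup.mk x : Prd p c ⧸ H) - QuotientAddGroup.mk y ∈ quoOpen H F ↔
      ∃ h ∈ H, ∀ i ∈ F, x i = y i + h i := by
  constructor
  · rintro ⟨u, hu, h⟩
    refine ⟨x - y - u, ?_, fun i hi => ?_⟩
    · rw [← QuotientAddGroup.eq_zero_iff]
      have h1 : (QuotientAddGroup.mk (x - y - u) : Prd p c ⧸ H) =
          QuotientAddGroup.mk x - QuotientAddGroup.mk y - QuotientAddGroup.mk u := rfl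
      rw [h1, sub_eq_zero]
      exact h.symm
    · have h2 : u i = 0 := hu i hi
      rw [Pi.sub_apply, Pi.sub_apply, h2, sub_zero, add_sub_cancel]
  · rintro ⟨h, hh, hF⟩
    refine ⟨x - y - h, fun i hi => ?_, ?_⟩
    · rw [Pi.sub_apply, Pi.sub_apply, hF i hi, add_sub_cancel_left, sub_self]
    · show (QuotientAddGroup.mk (x - y - h) : Prd p c ⧸ H) = _
      have h1 : (QuotientAddGroup.mk (x - y - h) : Prd p c ⧸ H) =
          QuotientAddGroup.mk x - QuotientAddGroup.mk y - QuotientAddGroup.mk h := rfl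
      rw [h1, (QuotientAddGroup.eq_zero_iff h).2 hh, sub_zero]

lemma quoOpen_anti {H : AddSubgroup (Prd p c)} {F F' : Finset I} (h : F ⊆ F') :
    quoOpen H F' ≤ quoOpen H F := by
  rintro _ ⟨u, hu, rfl⟩
  exact ⟨u, fun i hi => hu i (h hi), rfl⟩

lemma exists_quoOpen_le {H : AddSubgroup (Prd p c)} (N : OpenAddSubgroup (Prd p c ⧸ H)) :
    ∃ F, quoOpen H F ≤ N := by
  obtain ⟨F, hF⟩ := exists_coordOpen_le (preOpen H N)
  refine ⟨F, ?_⟩
  rintro _ ⟨u, hu, rfl⟩
  exact hF hu

/-- the quotient by `H` is complete iff the coherent families modulo `H` have limits -/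
theorem linComplete_quotient_iff (H : AddSubgroup (Prd p c)) :
    LinComplete (Prd p c ⧸ H) ↔ ∀ a : Finset I → Prd p c, Coh H a →
      ∃ y : Prd p c, ∀ F, ∃ h ∈ H, ∀ i ∈ F, y i = a F i + h i := by
  classical
  constructor
  · intro hL a ha
    choose Fs hFs using fun N : OpenAddSubgroup (Prd p c ⧸ H) => exists_quoOpen_le N
    have hco : ∀ F F' : Finset I, F ⊆ F' → (QuotientAddGroup.mk (a F') : Prd p c ⧸ H) -
        QuotientAddGroup.mk (a F) ∈ quoOpen H F := fun F F' hFF =>
      mk_sub_mk_mem_quoOpen.2 (ha F F' hFF)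
    obtain ⟨y, hy⟩ := hL (fun N => QuotientAddGroup.mk (a (Fs N))) (by
      intro N M hMN
      have h1 := hFs M (hco (Fs M) (Fs M ∪ Fs N) Finset.subset_union_left)
      have h2 := hFs N (hco (Fs N) (Fs M ∪ Fs N) Finset.subset_union_right)
      have h3 := sub_mem h2 (hMN h1)
      rwa [sub_sub_sub_cancel_left] at h3)
    obtain ⟨z, rfl⟩ := QuotientAddGroup.mk_surjective y
    refine ⟨z, fun F => ?_⟩
    rw [← mk_sub_mk_mem_quoOpen]
    have h1 := hy (quoOpen H F)
    have h2 := hFs (quoOpen H F) (hco (Fs (quoOpen H F)) (F ∪ Fs (quoOpen H F))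
      Finset.subset_union_right)
    have h3 := hco F (F ∪ Fs (quoOpen H F)) Finset.subset_union_left
    have h4 := add_mem (sub_mem h1 h2) h3
    rwa [sub_sub_sub_cancel_right, sub_add_sub_cancel] at h4
  · intro h x hx
    choose a ha using fun F => QuotientAddGroup.mk_surjective (x (quoOpen H F))
    obtain ⟨y, hy⟩ := h a (by
      intro F F' hFF
      rw [← mk_sub_mk_mem_quoOpen, ha, ha]
      exact hx _ _ (quoOpen_anti hFF))
    refine ⟨QuotientAddGroup.mk y, fun N => ?_⟩
    obtain ⟨F, hF⟩ := exists_quoOpen_le N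
    have h1 := hF (mk_sub_mk_mem_quoOpen.2 (hy F))
    rw [ha] at h1
    have h2 := add_mem h1 (hx N _ hF)
    rwa [sub_add_sub_cancel] at h2

end Pool.Agent.Work.MP_c629c8_al
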