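import Mathlib
import Pool.Agent.Work.MP_c629c8_al.Grp.Defs
import Pool.Agent.Work.MP_c629c8_al.IndLim

/-!
# Strong reflexivity implies linear uniformisation
-/

namespace Pool.Agent.Work.MP_c629c8_al.Conv

open Topology

variable {I : Type*} (p : List ℕ → ℕ) (c : I → ℕ → ℕ)

/-- the value of an element at a node -/
def co {x : ℕ → ℕ} (s : List ℕ) (f : BranchGroup p x) : ZMod (p s) := f.1 s

variable {p} in
lemma co_eq_zero {x : ℕ → ℕ} {s : List ℕ} (hs : ¬ Pre s x) (f : BranchGroup p x) :
    co p s f = 0 := by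
  by_contra h
  exact hs (f.2 s h)

lemma co_zero {x : ℕ → ℕ} (s : List ℕ) : co p s (0 : BranchGroup p x) = 0 := rfl

lemma co_add {x : ℕ → ℕ} (s : List ℕ) (f g : BranchGroup p x) :
    co p s (f + g) = co p s f + co p s g := DFinsupp.add_apply f.1 g.1 s

/-- the value at a node as a homomorphism -/
def coHom {x : ℕ → ℕ} (s : List ℕ) : BranchGroup p x →+ ZMod (p s) where
  toFun := co p s
  map_zero' := co_zero p s
  map_add' := co_add p s

/-- the element concentrated at a node -/
def at' (x : ℕ → ℕ) (s : List ℕ) (a : ZMod (p s)) (h : a ≠ 0 → Pre s x) : BranchGroup p x :=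
  ⟨DFinsupp.single s a, fun t ht => by
    by_cases hst : s = t
    · subst hst
      apply h
      intro h0
      apply ht
      rw [h0, DFinsupp.single_zero]
      rfl
    · exact absurd (DFinsupp.single_eq_of_ne (Ne.symm hst)) ht⟩

lemma co_at_same {x : ℕ → ℕ} {s : List ℕ} {a : ZMod (p s)} {h : a ≠ 0 → Pre s x} :
    co p s (at' p x s a h) = a := DFinsupp.single_eq_same

lemma co_at_ne {x : ℕ → ℕ} {s t : List ℕ} (hst : t ≠ s) {a : ZMod (p s)}
    {h : a ≠ 0 → Pre s x} : co p t (at' p x s a h) = 0 := DFinsupp.single_eq_of_ne hst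

lemma ext_co {x : ℕ → ℕ} {f g : BranchGroup p x} (h : ∀ s, co p s f = co p s g) : f = g :=
  Subtype.ext (DFinsupp.ext h)

/-- a point of the product concentrated at a node -/
noncomputable def pt (s : List ℕ) (w : I → ZMod (p s)) : ∀ i, BranchGroup p (c i) := fun i => by
  classical
  exact at' p (c i) s (if Pre s (c i) then w i else 0) (fun h => by
    by_contra h1
    rw [if_neg h1] at h
    exact h rfl)

variable {c} in
lemma co_pt {s : List ℕ} {w : I → ZMod (p s)} {i : I} (hi : Pre s (c i)) :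
    co p s (pt p c s w i) = w i := by
  unfold pt
  rw [co_at_same, if_pos hi]

lemma co_pt_ne {s t : List ℕ} (hst : t ≠ s) (w : I → ZMod (p s)) (i : I) :
    co p t (pt p c s w i) = 0 := by
  unfold pt
  exact co_at_ne p hst

lemma pt_eq_zero {s : List ℕ} {w : I → ZMod (p s)} {i : I} (hi : ¬ Pre s (c i) ∨ w i = 0) :
    pt p c s w i = 0 := by
  apply ext_co p
  intro t
  by_cases hst : t = s
  · subst hst
    by_cases h : Pre t (c i)
    · rw [co_pt p h]
      rcases hi with h1 | h1
      · exact absurd h h1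
      · rw [h1]
        rfl
    · rw [co_eq_zero h, co_eq_zero h]
  · rw [co_pt_ne p c hst]
    rfl

lemma pt_congr {s : List ℕ} {w w' : I → ZMod (p s)} {i : I} (h : Pre s (c i) → w i = w' i) :
    pt p c s w i = pt p c s w' i := by
  apply ext_co p
  intro t
  by_cases hst : t = s
  · subst hst
    by_cases hi : Pre t (c i)
    · rw [co_pt p hi, co_pt p hi, h hi]
    · rw [co_eq_zero hi, co_eq_zero hi]
  · rw [co_pt_ne p c hst, co_pt_ne p c hst]

/-- the pairing with a finitely supported vector -/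
noncomputable def pair (s : List ℕ) (v : I →₀ ZMod (p s)) : (∀ i, BranchGroup p (c i)) →+ ZMod (p s) where
  toFun x := v.sum fun i a => a * co p s (x i)
  map_zero' := by
    apply Finset.sum_eq_zero
    intro i _
    show v i * co p s (0 : BranchGroup p (c i)) = 0
    rw [co_zero, mul_zero]
  map_add' x y := by
    unfold Finsupp.sum
    rw [← Finset.sum_add_distrib]
    apply Finset.sum_congr rfl
    intro i _
    show v i * co p s (x i + y i) = v i * co p s (x i) + v i * co p s (y i)
    rw [co_add, mul_add]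

lemma pair_apply (s : List ℕ) (v : I →₀ ZMod (p s)) (x : ∀ i, BranchGroup p (c i)) :
    pair p c s v x = v.sum fun i a => a * co p s (x i) := rfl

lemma pair_pt_ne {s t : List ℕ} (hst : t ≠ s) (w : I → ZMod (p s)) (v : I →₀ ZMod (p t)) :
    pair p c t v (pt p c s w) = 0 := by
  rw [pair_apply]
  apply Finset.sum_eq_zero
  intro i _
  show v i * _ = 0
  rw [co_pt_ne p c hst, mul_zero]

variable {c} in
lemma pair_pt {s : List ℕ} (φ : (I →₀ ZMod (p s)) →ₗ[ZMod (p s)] ZMod (p s)) {v : I →₀ ZMod (p s)}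
    (hv : ∀ i, v i ≠ 0 → Pre s (c i)) :
    pair p c s v (pt p c s fun i => φ (Finsupp.single i 1)) = φ v := by
  rw [pair_apply]
  conv_rhs => rw [← Finsupp.sum_single v]
  rw [map_finsuppSum]
  apply Finset.sum_congr rfl
  intro i hi
  show v i * _ = φ (Finsupp.single i (v i))
  rw [co_pt p (hv i (Finsupp.mem_support_iff.1 hi))]
  have : Finsupp.single i (v i) = v i • Finsupp.single i (1 : ZMod (p s)) := by
    rw [Finsupp.smul_single, smul_eq_mul, mul_one]
  rw [this, map_smul, smul_eq_mul]

lemma continuous_pair (s : List ℕ) (v : I →₀ ZMod (p s)) {T : Type*} [TopologicalSpace T]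
    (f : ZMod (p s) → T) : Continuous fun x => f (pair p c s v x) := by
  have : (fun x => f (pair p c s v x)) = (fun y : (∀ i : v.support, BranchGroup p (c i)) =>
      f (∑ i : v.support, v i * co p s (y i))) ∘ fun x i => x i := by
    ext x
    show f _ = f _
    congr 1
    rw [pair_apply]
    exact (Finset.sum_coe_sort v.support fun i => v i * co p s (x i)).symm
  rw [this]
  exact continuous_of_discreteTopology.comp (continuous_pi fun i => continuous_apply _)

variable (R : ∀ s, Submodule (ZMod (p s)) (I →₀ ZMod (p s)))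

/-- the closed subgroup of the points orthogonal to the `R s` -/
def orth : AddSubgroup (∀ i, BranchGroup p (c i)) where
  carrier := {x | ∀ s, ∀ v ∈ R s, pair p c s v x = 0}
  zero_mem' := fun s v _ => map_zero _
  add_mem' := fun {x y} hx hy s v hv => by rw [map_add, hx s v hv, hy s v hv, add_zero]
  neg_mem' := fun {x} hx s v hv => by rw [map_neg, hx s v hv, neg_zero]

lemma mem_orth {x : ∀ i, BranchGroup p (c i)} :
    x ∈ orth p c R ↔ ∀ s, ∀ v ∈ R s, pair p c s v x = 0 := Iff.rfl

lemma isClosed_orth : IsClosed (orth p c R : Set (∀ i, BranchGroup p (c i))) := by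
  have : (orth p c R : Set (∀ i, BranchGroup p (c i))) =
      ⋂ (s) (v : R s), {x | (pair p c s v x = 0 : Prop)} := by
    ext x
    simp only [Set.mem_iInter]
    exact ⟨fun h s v => h s v v.2, fun h s v hv => h s ⟨v, hv⟩⟩
  rw [this]
  refine isClosed_iInter fun s => isClosed_iInter fun v => ?_
  have h2 : Continuous fun x => pair p c s (v : I →₀ ZMod (p s)) x :=
    @continuous_pair _ p c s v (ZMod (p s)) ⊥ (fun a => a)
  let _ : TopologicalSpace (ZMod (p s)) := ⊥
  have : DiscreteTopology (ZMod (p s)) := ⟨rfl⟩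
  exact (isClosed_discrete ({0} : Set (ZMod (p s)))).preimage h2

section main

variable {p c R} (hp : ∀ s, (p s).Prime) (hc : Function.Injective c)
  {L : ∀ s, R s →ₗ[ZMod (p s)] ZMod (p s)}
  (hR : ∀ s, ∀ v ∈ R s, ∀ i, v i ≠ 0 → Pre s (c i))
  (hL : ∀ s (v : R s) i, (∀ j, (v : I →₀ ZMod (p s)) j ≠ 0 → j = i) → L s v = 0)

include hc in
lemma pre_pair_finite {i j : I} (h : i ≠ j) : {s | Pre s (c i) ∧ Pre s (c j)}.Finite := by
  obtain ⟨k, hk⟩ := Function.ne_iff.1 fun h1 => h (hc h1)
  have h1 : ∀ s, Pre s (c i) → s = List.ofFn fun m : Fin s.length => c i m := by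
    intro s hs
    apply List.ext_getElem
    · simp
    · intro m h1 h2
      rw [hs m h1]
      simp
  refine ((Set.finite_Iic k).image (fun m => List.ofFn fun l : Fin m => c i l)).subset ?_
  rintro s ⟨h2, h3⟩
  refine ⟨s.length, ?_, (h1 s h2).symm⟩
  rw [Set.mem_Iic]
  by_contra hcon
  rw [not_le] at hcon
  exact hk ((h2 k hcon).symm.trans (h3 k hcon))

include hp hR hL hc in
/-- the points are small modulo the subgroup -/
lemma small_pt (φ : ∀ s, (I →₀ ZMod (p s)) →ₗ[ZMod (p s)] ZMod (p s))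
    (hφ : ∀ s (v : R s), φ s v = L s v) (F : Finset I) :
    {s | ¬ ∃ h ∈ orth p c R, ∀ i ∈ F, h i = pt p c s (fun i => φ s (Finsupp.single i 1)) i}.Finite := by
  classical
  have h1 : (⋃ q ∈ (((F ×ˢ F).filter fun q => q.1 ≠ q.2 : Finset (I × I)) : Set (I × I)),
      {s | Pre s (c q.1) ∧ Pre s (c q.2)}).Finite := by
    refine Set.Finite.biUnion (Finset.finite_toSet _) fun q hq => pre_pair_finite hc ?_
    exact (Finset.mem_filter.1 (Finset.mem_coe.1 hq)).2
  refine h1.subset ?_
  intro s hs
  by_contra hcon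
  apply hs
  have h2 : ∀ i ∈ F, ∀ j ∈ F, Pre s (c i) → Pre s (c j) → i = j := by
    intro i hi j hj h3 h4
    by_contra h5
    apply hcon
    simp only [Set.mem_iUnion]
    exact ⟨(i, j), by simp [hi, hj, h5], h3, h4⟩
  have : Fact (p s).Prime := ⟨hp s⟩
  by_cases hex : ∃ i ∈ F, Pre s (c i)
  · obtain ⟨i₀, hi₀, hpre⟩ := hex
    -- a functional
    obtain ⟨ψ, hψ1, hψ2⟩ : ∃ ψ : (I →₀ ZMod (p s)) →ₗ[ZMod (p s)] ZMod (p s),
        (∀ v ∈ R s, ψ v = 0) ∧ ψ (Finsupp.single i₀ 1) = φ s (Finsupp.single i₀ 1) := by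
      by_cases he : Finsupp.single i₀ 1 ∈ R s
      · refine ⟨0, fun _ _ => rfl, ?_⟩
        have h3 := hφ s ⟨_, he⟩
        rw [hL s ⟨_, he⟩ i₀ (by
          intro j hj
          by_contra hne
          exact hj (Finsupp.single_eq_of_ne hne))] at h3
        rw [LinearMap.zero_apply]
        exact h3.symm
      · obtain ⟨f, hf1, hf2⟩ := Submodule.exists_le_ker_of_notMem he
        refine ⟨(φ s (Finsupp.single i₀ 1) * (f (Finsupp.single i₀ 1))⁻¹) • f, ?_, ?_⟩
        · intro v hv
          rw [LinearMap.smul_apply]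
          have : f v = 0 := hf2 hv
          rw [this, smul_zero]
        · rw [LinearMap.smul_apply, smul_eq_mul, mul_assoc, inv_mul_cancel₀ hf1, mul_one]
    refine ⟨pt p c s fun i => ψ (Finsupp.single i 1), ?_, ?_⟩
    · intro t v hv
      by_cases hst : t = s
      · subst hst
        rw [pair_pt p ψ (hR t v hv)]
        exact hψ1 v hv
      · exact pair_pt_ne p c hst _ v
    · intro i hi
      apply pt_congr
      intro h3
      rw [h2 i hi i₀ hi₀ h3 hpre]
      exact hψ2
  · refine ⟨0, (orth p c R).zero_mem, ?_⟩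
    intro i hi
    exact (pt_eq_zero p c (Or.inl fun h => hex ⟨i, hi, h⟩)).symm

end main

/-- strong reflexivity implies linear uniformisation -/
theorem lu_of_stronglyReflexive {p : List ℕ → ℕ} {c : I → ℕ → ℕ} (hp : ∀ s, (p s).Prime)
    (hc : Function.Injective c) (hs : StronglyReflexive (∀ i, BranchGroup p (c i))) :
    LU p c := by
  classical
  intro R L hR hL
  -- the functionals extend
  have h1 : ∀ s, ∃ φ : (I →₀ ZMod (p s)) →ₗ[ZMod (p s)] ZMod (p s), ∀ v : R s, φ v = L s v := by
    intro s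
    have : Fact (p s).Prime := ⟨hp s⟩
    obtain ⟨φ, hφ⟩ := LinearMap.exists_extend (L s)
    exact ⟨φ, fun v => LinearMap.congr_fun hφ v⟩
  choose φ hφ using h1
  let w : ∀ s, ∀ i, BranchGroup p (c i) := fun s => pt p c s (fun i => φ s (Finsupp.single i 1))
  let e : ℕ → List ℕ := fun n => Denumerable.ofNat (List ℕ) n
  have he : Function.Injective e := (Denumerable.eqv (List ℕ)).symm.injective
  let H := orth p c R
  have hH : IsClosed (H : Set (∀ i, BranchGroup p (c i))) := isClosed_orth p c R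
  let q : ℕ → (∀ i, BranchGroup p (c i)) ⧸ H := fun n => QuotientAddGroup.mk (w (e n))
  have hq : ∀ W ∈ 𝓝 (0 : (∀ i, BranchGroup p (c i)) ⧸ H), ∃ n₀, ∀ n, n₀ ≤ n →
      ∀ j : ℕ, j • q n ∈ W := by
    intro W hW
    have h1 : (QuotientAddGroup.mk : (∀ i, BranchGroup p (c i)) → _ ⧸ H) ⁻¹' W ∈
        𝓝 (0 : ∀ i, BranchGroup p (c i)) :=
      (continuous_quot_mk (r := QuotientAddGroup.leftRel H)).continuousAt.preimage_mem_nhds hW
    rw [nhds_pi, Filter.mem_pi] at h1
    obtain ⟨F, hF, t, ht, hsub⟩ := h1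
    have h2 := small_pt hp hc hR hL φ hφ hF.toFinset
    have h3 : {n | ¬ ∃ h ∈ H, ∀ i ∈ hF.toFinset, h i = w (e n) i}.Finite :=
      h2.preimage he.injOn
    obtain ⟨M, hM⟩ := h3.bddAbove
    refine ⟨M + 1, fun n hn j => ?_⟩
    have h4 : ∃ h ∈ H, ∀ i ∈ hF.toFinset, h i = w (e n) i := by
      by_contra hcon
      have := hM hcon
      omega
    obtain ⟨h, hh, heq⟩ := h4
    have h5 : (j • (w (e n) - h) : ∀ i, BranchGroup p (c i)) ∈
        (QuotientAddGroup.mk : (∀ i, BranchGroup p (c i)) → _ ⧸ H) ⁻¹' W := by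
      apply hsub
      intro i hi
      have : (j • (w (e n) - h) : ∀ i, BranchGroup p (c i)) i = 0 := by
        rw [Pi.smul_apply, Pi.sub_apply, heq i (by simpa using hi), sub_self, smul_zero]
      rw [this]
      exact mem_of_mem_nhds (ht i)
    have h6 : j • q n = QuotientAddGroup.mk (j • (w (e n) - h)) := by
      have h7 : (QuotientAddGroup.mk (j • (w (e n) - h)) : (∀ i, BranchGroup p (c i)) ⧸ H) =
          j • (QuotientAddGroup.mk (w (e n)) - QuotientAddGroup.mk h) := rfl
      have h8 : (QuotientAddGroup.mk h : (∀ i, BranchGroup p (c i)) ⧸ H) = 0 := by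
        rwa [QuotientAddGroup.eq_zero_iff]
      rw [h7, h8, sub_zero]
    rw [h6]
    exact h5
  obtain ⟨a, ha⟩ := Ind.exists_weak_limit q hq (hs H hH).2.bijective.surjective
  obtain ⟨x, rfl⟩ := QuotientAddGroup.mk_surjective a
  -- the values
  have key : ∀ s (v : R s), pair p c s (v : I →₀ ZMod (p s)) x = L s v := by
    intro s v
    have : NeZero (p s) := ⟨(hp s).ne_zero⟩
    let θ : Dual (∀ i, BranchGroup p (c i)) :=
      { toAddMonoidHom := (ZMod.toAddCircle (N := p s)).comp (pair p c s v)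
        continuous_toFun := continuous_pair p c s v (fun a => ZMod.toAddCircle a) }
    let χ : Dual ((∀ i, BranchGroup p (c i)) ⧸ H) :=
      ⟨QuotientAddGroup.lift H θ.toAddMonoidHom (by
        intro y hy
        show ZMod.toAddCircle (pair p c s v y) = 0
        rw [hy s v v.2, map_zero]), continuous_quot_lift _ θ.continuous_toFun⟩
    have hχ : ∀ y, χ (QuotientAddGroup.mk y) = ZMod.toAddCircle (pair p c s v y) := fun y => rfl
    obtain ⟨n₀, hn₀⟩ := ha χ
    obtain ⟨m, hm⟩ : ∃ m, e m = s := ⟨Encodable.encode s, Denumerable.ofNat_encode s⟩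
    have h2 := hn₀ (max n₀ (m + 1)) (le_max_left _ _)
    rw [hχ, map_sum, Finset.sum_eq_single m] at h2
    · rw [hχ, hm] at h2
      have h3 := ZMod.toAddCircle_injective (p s) h2
      rw [h3]
      show pair p c s v (pt p c s fun i => φ s (Finsupp.single i 1)) = _
      rw [pair_pt p (φ s) (hR s v v.2), hφ]
    · intro k _ hk
      rw [hχ]
      show ZMod.toAddCircle (pair p c s v (pt p c (e k) _)) = 0
      rw [pair_pt_ne p c (fun h => hk (he (by rw [hm, ← h])))]
      exact map_zero _
    · intro h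
      exact absurd (Finset.mem_range.2 (lt_of_lt_of_le (Nat.lt_succ_self m) (le_max_right _ _))) h
  -- the bound
  refine ⟨fun i => (x i).1.support.sup List.length + 1, fun s v hv => ?_⟩
  rw [← key, pair_apply]
  apply Finset.sum_eq_zero
  intro i hi
  have h2 : (x i).1.support.sup List.length + 1 ≤ s.length :=
    hv i (Finsupp.mem_support_iff.1 hi)
  have h3 : co p s (x i) = 0 := by
    by_contra hne
    have h4 : s ∈ (x i).1.support := DFinsupp.mem_support_iff.2 hne
    have h5 := Finset.le_sup (f := List.length) h4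
    omega
  show (v : I →₀ ZMod (p s)) i * co p s (x i) = 0
  rw [h3, mul_zero]

end Pool.Agent.Work.MP_c629c8_al.Conv
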