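import Mathlib
import Pool.Agent.Work.MP_c629c8_al.Grp.Comp
import Pool.Agent.Work.MP_c629c8_al.Grp.Conv

/-!
# Linear uniformisation implies that the Hausdorff quotients are complete
-/

namespace Pool.Agent.Work.MP_c629c8_al.Quot

open Topology Conv

variable {I : Type*} {p : List ℕ → ℕ} {c : I → ℕ → ℕ}

lemma pair_add_left (s : List ℕ) (v w : I →₀ ZMod (p s)) (x : ∀ i, BranchGroup p (c i)) :
    pair p c s (v + w) x = pair p c s v x + pair p c s w x := by
  rw [pair_apply, pair_apply, pair_apply]
  exact Finsupp.sum_add_index' (fun i => zero_mul _) (fun i a b => add_mul _ _ _)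

lemma pair_smul_left (s : List ℕ) (a : ZMod (p s)) (v : I →₀ ZMod (p s))
    (x : ∀ i, BranchGroup p (c i)) : pair p c s (a • v) x = a * pair p c s v x := by
  rw [pair_apply, pair_apply, Finsupp.sum_smul_index' (fun i => zero_mul _), Finsupp.mul_sum]
  apply Finset.sum_congr rfl
  intro i _
  show a • v i * _ = a * (v i * _)
  rw [smul_eq_mul, mul_assoc]

lemma pair_congr {s : List ℕ} {v : I →₀ ZMod (p s)} {x y : ∀ i, BranchGroup p (c i)}
    (h : ∀ i, v i ≠ 0 → co p s (x i) = co p s (y i)) : pair p c s v x = pair p c s v y := by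
  rw [pair_apply, pair_apply]
  apply Finset.sum_congr rfl
  intro i hi
  show v i * _ = v i * _
  rw [h i (Finsupp.mem_support_iff.1 hi)]

/-- the annihilator of `H` at the node `s` -/
def ann (H : AddSubgroup (∀ i, BranchGroup p (c i))) (s : List ℕ) :
    Submodule (ZMod (p s)) (I →₀ ZMod (p s)) where
  carrier := {v | (∀ i, v i ≠ 0 → Pre s (c i)) ∧ ∀ x ∈ H, pair p c s v x = 0}
  zero_mem' := ⟨fun i h => absurd rfl h, fun x _ => by
    rw [pair_apply, Finsupp.sum_zero_index]⟩
  add_mem' := fun {v w} hv hw => ⟨fun i h => by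
    by_cases h1 : v i = 0
    · refine hw.1 i fun h2 => h ?_
      rw [Finsupp.add_apply, h1, h2, add_zero]
    · exact hv.1 i h1, fun x hx => by
    rw [pair_add_left, hv.2 x hx, hw.2 x hx, add_zero]⟩
  smul_mem' := fun a v hv => ⟨fun i h => by
    refine hv.1 i fun h1 => h ?_
    rw [Finsupp.smul_apply, h1, smul_zero], fun x hx => by
    rw [pair_smul_left, hv.2 x hx, mul_zero]⟩

lemma mem_ann {H : AddSubgroup (∀ i, BranchGroup p (c i))} {s : List ℕ} {v : I →₀ ZMod (p s)} :
    v ∈ ann H s ↔ (∀ i, v i ≠ 0 → Pre s (c i)) ∧ ∀ x ∈ H, pair p c s v x = 0 := Iff.rfl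

/-- duality at a node, for finitely many coordinates -/
lemma exists_at_node (hp : ∀ s, (p s).Prime) {H : AddSubgroup (∀ i, BranchGroup p (c i))}
    (F : Finset I) (s : List ℕ) (z : ∀ i, BranchGroup p (c i))
    (hz : ∀ v ∈ ann H s, (∀ i, v i ≠ 0 → i ∈ F) → pair p c s v z = 0) :
    ∃ x ∈ H, ∀ i ∈ F, co p s (x i) = co p s (z i) := by
  classical
  have : Fact (p s).Prime := ⟨hp s⟩
  let ρ : (∀ i, BranchGroup p (c i)) →+ (F → ZMod (p s)) :=
    { toFun := fun x i => co p s (x i)
      map_zero' := rfl
      map_add' := fun x y => funext fun i => co_add p s (x i) (y i) }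
  let W : Submodule (ZMod (p s)) (F → ZMod (p s)) := AddSubgroup.toZModSubmodule (p s) (H.map ρ)
  by_cases hW : ρ z ∈ W
  · obtain ⟨x, hx, hxz⟩ := hW
    exact ⟨x, hx, fun i hi => congrFun hxz ⟨i, hi⟩⟩
  · exfalso
    obtain ⟨f, hf1, hf2⟩ := Submodule.exists_le_ker_of_notMem hW
    let v : I →₀ ZMod (p s) := Finsupp.onFinset F
      (fun i => if h : i ∈ F ∧ Pre s (c i) then f (Pi.single ⟨i, h.1⟩ 1) else 0) (by
        intro i hi
        by_contra h
        apply hi
        rw [dif_neg fun h1 => h h1.1])
    have hv : ∀ i, v i = if h : i ∈ F ∧ Pre s (c i) then f (Pi.single ⟨i, h.1⟩ 1) else 0 :=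
      fun i => rfl
    have hv1 : ∀ i, v i ≠ 0 → i ∈ F ∧ Pre s (c i) := by
      intro i hi
      by_contra h
      apply hi
      rw [hv, dif_neg h]
    have hpair : ∀ x : ∀ i, BranchGroup p (c i), pair p c s v x = f (ρ x) := by
      intro x
      rw [pair_apply, Finsupp.sum_of_support_subset v (s := F)
        (fun i hi => (hv1 i (Finsupp.mem_support_iff.1 hi)).1) (fun i a => a * co p s (x i))
        (fun i _ => zero_mul _)]
      rw [← Finset.sum_coe_sort F fun i => v i * co p s (x i)]
      have h1 : ρ x = ∑ i : F, (ρ x i) • (Pi.single i (1 : ZMod (p s)) : F → ZMod (p s)) := by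
        ext j
        rw [Finset.sum_apply, Finset.sum_eq_single j]
        · rw [Pi.smul_apply, Pi.single_eq_same, smul_eq_mul, mul_one]
        · intro i _ hij
          rw [Pi.smul_apply, Pi.single_eq_of_ne hij.symm, smul_zero]
        · intro h
          exact absurd (Finset.mem_univ j) h
      rw [h1, map_sum]
      apply Finset.sum_congr rfl
      intro i _
      rw [map_smul, smul_eq_mul, mul_comm]
      by_cases hi : Pre s (c i)
      · rw [hv, dif_pos ⟨i.2, hi⟩]
        rfl
      · have h2 : ρ x i = 0 := co_eq_zero hi (x i)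
        rw [h2, zero_mul]
        have h3 : co p s (x i) = 0 := co_eq_zero hi (x i)
        rw [h3, zero_mul]
    apply hf1
    rw [← hpair]
    apply hz v
    · refine ⟨fun i hi => (hv1 i hi).2, fun x hx => ?_⟩
      rw [hpair]
      exact hf2 ⟨x, hx, rfl⟩
    · exact fun i hi => (hv1 i hi).1

/-- duality for finitely many coordinates -/
lemma exists_mem_of_pair (hp : ∀ s, (p s).Prime) (hpi : Function.Injective p)
    {H : AddSubgroup (∀ i, BranchGroup p (c i))}
    (hH : IsClosed (H : Set (∀ i, BranchGroup p (c i)))) (F : Finset I)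
    (z : ∀ i, BranchGroup p (c i))
    (hz : ∀ s, ∀ v ∈ ann H s, (∀ i, v i ≠ 0 → i ∈ F) → pair p c s v z = 0) :
    ∃ x ∈ H, ∀ i ∈ F, x i = z i := by
  classical
  choose x hx hxz using fun s => exists_at_node hp F s z (hz s)
  obtain ⟨S, hS⟩ := exists_support F z
  refine ⟨∑ s ∈ S, cpt s (x s), H.sum_mem fun s _ => cpt_mem hp hpi hH (hx s) s, ?_⟩
  intro i hi
  refine vl_ext fun t => ?_
  rw [vl_sum]
  by_cases ht : t ∈ S
  · rw [Finset.sum_eq_single t (fun s _ h => vl_cpt_of_ne h (x s) i) (fun h => absurd ht h),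
      vl_cpt_self]
    exact hxz t i hi
  · rw [Finset.sum_eq_zero]
    · by_contra h
      exact ht (hS i hi t fun h2 => h h2.symm)
    · intro s hs
      exact vl_cpt_of_ne (fun h => ht (by rwa [← h])) (x s) i

/-- the coherent families of points of the product modulo `H` have limits -/
lemma exists_limit (hp : ∀ s, (p s).Prime) (hpi : Function.Injective p) (hLU : LU p c)
    {H : AddSubgroup (∀ i, BranchGroup p (c i))}
    (hH : IsClosed (H : Set (∀ i, BranchGroup p (c i))))
    (g : Finset I → ∀ i, BranchGroup p (c i))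
    (hg : ∀ F F', F ⊆ F' → ∃ x ∈ H, ∀ i ∈ F, x i = g F' i - g F i) :
    ∃ y : ∀ i, BranchGroup p (c i), ∀ F, ∃ x ∈ H, ∀ i ∈ F, x i = y i - g F i := by
  classical
  -- the values do not depend on the finite set
  have hval : ∀ s, ∀ v ∈ ann H s, ∀ F F' : Finset I, v.support ⊆ F → F ⊆ F' →
      pair p c s v (g F') = pair p c s v (g F) := by
    intro s v hv F F' hF hFF'
    obtain ⟨x, hx, hxF⟩ := hg F F' hFF'
    have h1 := hv.2 x hx
    have h2 : pair p c s v x = pair p c s v (g F' - g F) := by
      apply pair_congr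
      intro i hi
      rw [hxF i (hF (Finsupp.mem_support_iff.2 hi))]
      rfl
    rw [h1, map_sub] at h2
    exact (sub_eq_zero.1 h2.symm)
  let u : ∀ i, BranchGroup p (c i) := fun i => g {i} i
  let L : ∀ s, ann H s →ₗ[ZMod (p s)] ZMod (p s) := fun s =>
    { toFun := fun v => pair p c s v (g (v : I →₀ ZMod (p s)).support) - pair p c s v u
      map_add' := fun v w => by
        have h1 := hval s v v.2 _ (((v : I →₀ ZMod (p s)).support ∪
          (w : I →₀ ZMod (p s)).support) ∪ ((v : I →₀ ZMod (p s)) + w).support) (subset_refl _)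
          (Finset.subset_union_left.trans Finset.subset_union_left)
        have h2 := hval s w w.2 _ (((v : I →₀ ZMod (p s)).support ∪
          (w : I →₀ ZMod (p s)).support) ∪ ((v : I →₀ ZMod (p s)) + w).support) (subset_refl _)
          (Finset.subset_union_right.trans Finset.subset_union_left)
        have h3 := hval s (v + w : ann H s) (v + w).2 _ (((v : I →₀ ZMod (p s)).support ∪
          (w : I →₀ ZMod (p s)).support) ∪ ((v : I →₀ ZMod (p s)) + w).support) (subset_refl _)
          Finset.subset_union_right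
        rw [← h1, ← h2, ← h3]
        simp only [Submodule.coe_add, pair_add_left]
        ring
      map_smul' := fun a v => by
        have h3 := hval s (a • v : ann H s) (a • v).2 _ ((v : I →₀ ZMod (p s)).support)
          (subset_refl _) (by
            rw [Submodule.coe_smul]
            exact Finsupp.support_smul)
        rw [← h3]
        simp only [Submodule.coe_smul, pair_smul_left, RingHom.id_apply, smul_eq_mul]
        ring }
  have hLdef : ∀ s (v : ann H s), L s v =
      pair p c s v (g (v : I →₀ ZMod (p s)).support) - pair p c s v u := fun s v => rfl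
  obtain ⟨n, hn⟩ := hLU (fun s => ann H s) L (fun s v hv => hv.1) (by
    intro s v i hi
    rw [hLdef, sub_eq_zero]
    have h1 : (v : I →₀ ZMod (p s)).support ⊆ {i} := by
      intro j hj
      rw [Finset.mem_singleton]
      exact hi j (Finsupp.mem_support_iff.1 hj)
    rw [← hval s v v.2 _ {i} (subset_refl _) h1]
    apply pair_congr
    intro j hj
    rw [hi j hj])
  -- the functionals
  have hΦ : ∀ s, ∃ Φ : (I →₀ ZMod (p s)) →ₗ[ZMod (p s)] ZMod (p s),
      (∀ v ∈ ann H s, Φ v = pair p c s v (g v.support)) ∧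
      ∀ i, n i ≤ s.length → Pre s (c i) → Φ (Finsupp.single i 1) = co p s (u i) := by
    intro s
    have : Fact (p s).Prime := ⟨hp s⟩
    let γ : (I →₀ ZMod (p s)) →ₗ[ZMod (p s)] ZMod (p s) :=
      { toFun := fun v => pair p c s v u
        map_add' := fun v w => pair_add_left s v w u
        map_smul' := fun a v => pair_smul_left s a v u }
    let T : Submodule (ZMod (p s)) (I →₀ ZMod (p s)) :=
      { carrier := {v | ∀ i, v i ≠ 0 → n i ≤ s.length}
        zero_mem' := fun i h => absurd rfl h
        add_mem' := fun {v w} hv hw i h => by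
          by_cases h1 : v i = 0
          · refine hw i fun h2 => h ?_
            rw [Finsupp.add_apply, h1, h2, add_zero]
          · exact hv i h1
        smul_mem' := fun a v hv i h => by
          refine hv i fun h1 => h ?_
          rw [Finsupp.smul_apply, h1, smul_zero] }
    let f1 : (I →₀ ZMod (p s)) →ₗ.[ZMod (p s)] ZMod (p s) := ⟨ann H s, L s⟩
    let f2 : (I →₀ ZMod (p s)) →ₗ.[ZMod (p s)] ZMod (p s) := ⟨T, 0⟩
    have hag : ∀ (x : f1.domain) (y : f2.domain), (x : I →₀ ZMod (p s)) = y → f1 x = f2 y := by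
      intro x y hxy
      show L s x = 0
      apply hn s x
      intro i hi
      rw [hxy] at hi
      exact y.2 i hi
    let f := f1.sup f2 hag
    obtain ⟨M, hM⟩ := LinearMap.exists_extend f.toFun
    have hM1 : ∀ v : ann H s, M v = L s v := by
      intro v
      have h1 : (v : I →₀ ZMod (p s)) ∈ f.domain := Submodule.mem_sup_left v.2
      have h2 := LinearMap.congr_fun hM ⟨v, h1⟩
      have h3 : f ⟨v, h1⟩ = f1 v := by
        have h4 := LinearPMap.sup_apply hag v 0 ⟨v, h1⟩ (by simp)
        refine h4.trans ?_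
        show L s v + (0 : ZMod (p s)) = L s v
        rw [add_zero]
      exact h2.trans h3
    have hM2 : ∀ v ∈ T, M v = 0 := by
      intro v hv
      have h1 : v ∈ f.domain := Submodule.mem_sup_right hv
      have h2 := LinearMap.congr_fun hM ⟨v, h1⟩
      have h3 : f ⟨v, h1⟩ = 0 := by
        have h4 := LinearPMap.sup_apply hag 0 ⟨v, hv⟩ ⟨v, h1⟩ (by simp)
        refine h4.trans ?_
        show L s 0 + (0 : ZMod (p s)) = 0
        rw [map_zero, add_zero]
      exact h2.trans h3
    refine ⟨M + γ, fun v hv => ?_, fun i hi hpre => ?_⟩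
    · rw [LinearMap.add_apply, hM1 ⟨v, hv⟩, hLdef]
      show pair p c s v (g v.support) - pair p c s v u + pair p c s v u = _
      rw [sub_add_cancel]
    · rw [LinearMap.add_apply, hM2 (Finsupp.single i 1) (by
        intro j hj
        have : j = i := by
          by_contra hne
          exact hj (Finsupp.single_eq_of_ne hne)
        rw [this]
        exact hi), zero_add]
      show pair p c s (Finsupp.single i 1) u = _
      rw [pair_apply, Finsupp.sum_single_index (zero_mul _), one_mul]
  choose Φ hΦ1 hΦ2 using hΦ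
  -- the point
  let val : ∀ (i : I) (s : List ℕ), ZMod (p s) := fun i s =>
    if Pre s (c i) then Φ s (Finsupp.single i 1) else 0
  have hpref : ∀ i, {s | Pre s (c i) ∧ s.length < n i}.Finite := by
    intro i
    refine ((Set.finite_Iio (n i)).image (pr (c i))).subset ?_
    rintro s ⟨h1, h2⟩
    exact ⟨s.length, h2, h1.eq_pr.symm⟩
  let S : I → Finset (List ℕ) := fun i => (hpref i).toFinset ∪ (vl_finite (u i)).toFinset
  let y : ∀ i, BranchGroup p (c i) := fun i => ∑ s ∈ S i, at' p (c i) s (val i s) (fun h => by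
    by_contra h1
    apply h
    show (if Pre s (c i) then _ else _) = _
    rw [if_neg h1])
  have hy : ∀ i s, co p s (y i) = val i s := by
    intro i s
    have h1 : co p s (y i) = ∑ t ∈ S i, co p s (at' p (c i) t (val i t) (fun h => by
        by_contra h1
        apply h
        show (if Pre t (c i) then _ else _) = _
        rw [if_neg h1])) := by
      show coHom p s (∑ t ∈ S i, _) = _
      rw [map_sum]
      rfl
    rw [h1]
    by_cases hs : s ∈ S i
    · rw [Finset.sum_eq_single s]
      · exact co_at_same p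
      · intro t _ ht
        exact co_at_ne p (Ne.symm ht)
      · intro h
        exact absurd hs h
    · rw [Finset.sum_eq_zero]
      · symm
        show (if Pre s (c i) then _ else _) = _
        split_ifs with hpre
        · have h2 : n i ≤ s.length := by
            by_contra h3
            apply hs
            apply Finset.mem_union_left
            rw [Set.Finite.mem_toFinset]
            exact ⟨hpre, not_le.1 h3⟩
          rw [hΦ2 s i h2 hpre]
          by_contra h3
          apply hs
          apply Finset.mem_union_right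
          rw [Set.Finite.mem_toFinset]
          exact h3
        · rfl
      · intro t ht
        exact co_at_ne p (fun h => hs (by rwa [h]))
  refine ⟨y, fun F => ?_⟩
  apply exists_mem_of_pair hp hpi hH F (y - g F)
  intro s v hv hvF
  have h1 : pair p c s v y = pair p c s v (g v.support) := by
    rw [← hΦ1 s v hv, ← pair_pt p (Φ s) hv.1]
    apply pair_congr
    intro i hi
    rw [hy, co_pt p (hv.1 i hi)]
    show (if Pre s (c i) then _ else _) = _
    rw [if_pos (hv.1 i hi)]
  have h2 : v.support ⊆ F := fun i hi => hvF i (Finsupp.mem_support_iff.1 hi)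
  rw [map_sub, h1, hval s v hv _ F (subset_refl _) h2, sub_self]

/-- the image of a coordinate subgroup in the quotient -/
noncomputable def coordQuot (H : AddSubgroup (∀ i, BranchGroup p (c i))) (F : Finset I) :
    OpenAddSubgroup ((∀ i, BranchGroup p (c i)) ⧸ H) where
  toAddSubgroup := ((coordOpen (fun i => BranchGroup p (c i)) F : OpenAddSubgroup _) :
    AddSubgroup (∀ i, BranchGroup p (c i))).map (QuotientAddGroup.mk' H)
  isOpen' := by
    show IsOpen ((QuotientAddGroup.mk' H) '' _)
    exact QuotientAddGroup.isOpenMap_coe _ (coordOpen (fun i => BranchGroup p (c i)) F).isOpen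

lemma mem_coordQuot {H : AddSubgroup (∀ i, BranchGroup p (c i))} {F : Finset I}
    {z : ∀ i, BranchGroup p (c i)} :
    (QuotientAddGroup.mk z : (∀ i, BranchGroup p (c i)) ⧸ H) ∈ coordQuot H F ↔
      ∃ x ∈ H, ∀ i ∈ F, x i = z i := by
  constructor
  · rintro ⟨w, hw, hwz⟩
    have h1 : (QuotientAddGroup.mk w : (∀ i, BranchGroup p (c i)) ⧸ H) = QuotientAddGroup.mk z := hwz
    rw [QuotientAddGroup.eq] at h1
    refine ⟨-w + z, h1, fun i hi => ?_⟩
    have h2 : w i = 0 := hw i hi
    rw [Pi.add_apply, Pi.neg_apply, h2, neg_zero, zero_add]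
  · rintro ⟨x, hx, hxz⟩
    refine ⟨z - x, ?_, ?_⟩
    · intro i hi
      show z i - x i = 0
      rw [hxz i hi, sub_self]
    · show (QuotientAddGroup.mk (z - x) : (∀ i, BranchGroup p (c i)) ⧸ H) = QuotientAddGroup.mk z
      rw [QuotientAddGroup.eq, neg_sub, sub_add_cancel]
      exact hx

/-- Linear uniformisation implies the completeness of the Hausdorff quotients. -/
theorem linComplete_quotient (hp : ∀ s, (p s).Prime) (hpi : Function.Injective p)
    (hLU : LU p c) (H : AddSubgroup (Prd p c)) (hH : IsClosed (H : Set (Prd p c))) :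
    LinComplete (Prd p c ⧸ H) := by
  classical
  intro x hx
  choose g hg using fun F => QuotientAddGroup.mk_surjective (x (coordQuot H F))
  have hmono : ∀ F F' : Finset I, F ⊆ F' → coordQuot H F' ≤ coordQuot H F := by
    intro F F' hFF' z hz
    obtain ⟨z, rfl⟩ := QuotientAddGroup.mk_surjective z
    obtain ⟨w, hw, hwz⟩ := mem_coordQuot.1 hz
    exact mem_coordQuot.2 ⟨w, hw, fun i hi => hwz i (hFF' hi)⟩
  obtain ⟨y, hy⟩ := exists_limit hp hpi hLU hH g (by
    intro F F' hFF'
    have h1 := hx _ _ (hmono F F' hFF')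
    rw [← hg F, ← hg F', ← QuotientAddGroup.mk_sub] at h1
    exact mem_coordQuot.1 h1)
  refine ⟨QuotientAddGroup.mk y, fun N => ?_⟩
  obtain ⟨F, hF⟩ := exists_coordOpen_le (D := fun i => BranchGroup p (c i))
    (N.comap (QuotientAddGroup.mk' H) continuous_quot_mk)
  have hN : coordQuot H F ≤ N := by
    rintro _ ⟨w, hw, rfl⟩
    exact hF hw
  have h1 := hx N (coordQuot H F) hN
  have h2 : (QuotientAddGroup.mk y - x (coordQuot H F) : (∀ i, BranchGroup p (c i)) ⧸ H) ∈
      coordQuot H F := by
    rw [← hg F, ← QuotientAddGroup.mk_sub]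
    exact mem_coordQuot.2 (hy F)
  have h3 := N.add_mem (hN h2) h1
  rwa [sub_add_sub_cancel] at h3

end Pool.Agent.Work.MP_c629c8_al.Quot
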