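import Mathlib
import Pool.Agent.Work.MP_c629c8_al.Grp.Back
import Pool.Agent.Work.MP_c629c8_al.Grp.Quot
import Pool.Agent.Work.MP_c629c8_al.Grp.Lin

/-!
# Strong reflexivity of the products of branch groups
-/

namespace Pool.Agent.Work.MP_c629c8_al

variable {I : Type*} {p : List ℕ → ℕ} {c : I → ℕ → ℕ}

/-- a product of branch groups is strongly reflexive iff linear uniformisation holds -/
theorem stronglyReflexive_iff_lu (hp : ∀ s, (p s).Prime) (hpi : Function.Injective p)
    (hc : Function.Injective c) : StronglyReflexive (Prd p c) ↔ LU p c :=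
  ⟨fun h => Conv.lu_of_stronglyReflexive hp hc h, fun h =>
    stronglyReflexive_of_linComplete hp hpi hc fun H hH => Quot.linComplete_quotient hp hpi h H hH⟩

/-- a product of branch groups is strongly reflexive iff its Hausdorff quotients are complete -/
theorem stronglyReflexive_iff (hp : ∀ s, (p s).Prime) (hpi : Function.Injective p)
    (hc : Function.Injective c) : StronglyReflexive (Prd p c) ↔
      ∀ H : AddSubgroup (Prd p c), IsClosed (H : Set (Prd p c)) → LinComplete (Prd p c ⧸ H) :=
  ⟨fun h => Quot.linComplete_quotient hp hpi ((stronglyReflexive_iff_lu hp hpi hc).1 h),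
    stronglyReflexive_of_linComplete hp hpi hc⟩

/-- a product of branch groups is strongly reflexive iff coherent families modulo closed subgroups
have limits -/
theorem stronglyReflexive_iff_limits (hp : ∀ s, (p s).Prime) (hpi : Function.Injective p)
    (hc : Function.Injective c) : StronglyReflexive (Prd p c) ↔
      ∀ H : AddSubgroup (Prd p c), IsClosed (H : Set (Prd p c)) →
        ∀ a : Finset I → Prd p c, Coh H a →
          ∃ y : Prd p c, ∀ F, ∃ h ∈ H, ∀ i ∈ F, y i = a F i + h i := by
  rw [stronglyReflexive_iff hp hpi hc]
  exact forall₂_congr fun H _ => linComplete_quotient_iff H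

end Pool.Agent.Work.MP_c629c8_al
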