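import Pool.Agent.Work.MP_c629c8_al.Grp.Comp
import Pool.Agent.Work.MP_c629c8_al.UnifMain

/-!
# The branch groups are not Artinian

Under `2 ^ ℵ₀ < 2 ^ ℵ₁` no product of uncountably many branch groups is strongly reflexive.
-/

namespace Pool.Agent.Work.MP_c629c8_al

open Cardinal

variable {p : List ℕ → ℕ} {x : ℕ → ℕ}

/-- The initial segment of length `n`. -/
def seg (x : ℕ → ℕ) (n : ℕ) : List ℕ := List.ofFn fun k : Fin n => x k

theorem seg_length (x : ℕ → ℕ) (n : ℕ) : (seg x n).length = n := List.length_ofFn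

theorem pre_seg (x : ℕ → ℕ) (n : ℕ) : Pre (seg x n) x := by
  intro k h
  simp [seg]

/-- The elements whose coordinates at the nodes of length less than `n` vanish. -/
noncomputable def lowSub (p : List ℕ → ℕ) (x : ℕ → ℕ) (n : ℕ) : Submodule ℤ (BranchGroup p x) :=
  AddSubgroup.toIntSubmodule
    { carrier := {d | ∀ s : List ℕ, s.length < n → vl s d = 0}
      zero_mem' := fun s _ => map_zero (vl s)
      add_mem' := fun {d e} hd he s hs => by rw [map_add, hd s hs, he s hs, add_zero]
      neg_mem' := fun {d} hd s hs => by rw [map_neg, hd s hs, neg_zero] }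

theorem mem_lowSub {n : ℕ} {d : BranchGroup p x} :
    d ∈ lowSub p x n ↔ ∀ s : List ℕ, s.length < n → vl s d = 0 := Iff.rfl

theorem not_isArtinian_branch (hp : ∀ s, (p s).Prime) : ¬ IsArtinian ℤ (BranchGroup p x) := by
  intro h
  obtain ⟨n, hn⟩ := IsArtinian.monotone_stabilizes (R := ℤ) (M := BranchGroup p x)
    ⟨fun n => OrderDual.toDual (lowSub p x n), fun m n hmn => by
      intro d hd s hs
      exact hd s (hs.trans_le hmn)⟩
  have h1 : lowSub p x n = lowSub p x (n + 1) := hn (n + 1) (Nat.le_succ n)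
  have hne : (1 : ZMod (p (seg x n))) ≠ 0 := by
    have : Fact (p (seg x n)).Prime := ⟨hp _⟩
    exact one_ne_zero
  have h2 : (sgl (seg x n) 1 : BranchGroup p x) ∈ lowSub p x n := by
    intro s hs
    refine vl_sgl_of_ne (fun _ => pre_seg x n) ?_
    rintro rfl
    rw [seg_length] at hs
    exact lt_irrefl n hs
  rw [h1] at h2
  have h3 := h2 (seg x n) (by rw [seg_length]; exact Nat.lt_succ_self n)
  rw [vl_sgl_self (fun _ => pre_seg x n)] at h3
  exact hne h3

theorem not_artinianQuotients_branch (hp : ∀ s, (p s).Prime) :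
    ¬ ArtinianQuotients (BranchGroup p x) := by
  intro h
  have h1 := h ⊥ (isOpen_discrete _)
  have h2 : Function.Injective
      ((QuotientAddGroup.mk' (⊥ : AddSubgroup (BranchGroup p x))).toIntLinearMap) := by
    intro a b hab
    have h3 : (QuotientAddGroup.mk a : BranchGroup p x ⧸ (⊥ : AddSubgroup (BranchGroup p x))) =
        QuotientAddGroup.mk b := hab
    rw [QuotientAddGroup.eq, AddSubgroup.mem_bot] at h3
    exact (neg_add_eq_zero.1 h3)
  exact not_isArtinian_branch hp (isArtinian_of_injective _ h2)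

/-- Under `2 ^ ℵ₀ < 2 ^ ℵ₁` no product of uncountably many branch groups is strongly reflexive. -/
theorem countable_of_stronglyReflexive (hCH : (2 : Cardinal.{0}) ^ ℵ₀ < 2 ^ ℵ₁)
    (hp : ∀ s, (p s).Prime) {I : Type*} {c : I → ℕ → ℕ}
    (h : StronglyReflexive (∀ i, BranchGroup p (c i))) : Countable I := by
  have h1 := countable_of_weakCH hCH h
  have h2 : {i : I | ¬ ArtinianQuotients (BranchGroup p (c i))} = Set.univ :=
    Set.eq_univ_of_forall fun i => not_artinianQuotients_branch hp
  rw [h2] at h1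
  exact Set.countable_univ_iff.1 h1

end Pool.Agent.Work.MP_c629c8_al
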